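import Mathlib
import Pool.Agent.Lib.MP_cd28a7_co.Tok

set_option autoImplicit false

/-! A verified checker: insertion trees for the non-existence of 3-page book embeddings. -/

namespace Pool.Agent.Lib.MP_cd28a7_co

/-- the 10-vertex graph, as a bit table -/
def tmask : ℕ := 613643333010186608922720761654

/-- adjacency of the 10-vertex graph -/
def tadj (a b : ℕ) : Bool := Nat.blt a 10 && (Nat.blt b 10 && Nat.testBit tmask (10 * a + b))

/-- all insertions of `v` -/
def ins (v : ℕ) : List ℕ → List (List ℕ)
  | [] => [[v]]
  | a :: l => (v :: a :: l) :: (ins v l).map (fun t => a :: t)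

/-- position of `x` -/
def posn (x : ℕ) : List ℕ → ℕ
  | [] => 0
  | a :: l => cond (Nat.beq a x) 0 (posn x l + 1)

/-- membership -/
def memb (x : ℕ) : List ℕ → Bool
  | [] => false
  | a :: l => cond (Nat.beq a x) true (memb x l)

/-- crossing of two sorted position pairs -/
def crs (e f : ℕ × ℕ) : Bool :=
  (Nat.blt e.1 f.1 && (Nat.blt f.1 e.2 && Nat.blt e.2 f.2)) ||
    (Nat.blt f.1 e.1 && (Nat.blt e.1 f.2 && Nat.blt f.2 e.2))

/-- the sorted position pair of an edge -/
def toPos (L : List ℕ) (e : ℕ × ℕ) : ℕ × ℕ :=
  cond (Nat.blt (posn e.1 L) (posn e.2 L)) (posn e.1 L, posn e.2 L) (posn e.2 L, posn e.1 L)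

/-- colour `c` is possible for `e` -/
def okc (e : ℕ × ℕ) (c : ℕ) : List ((ℕ × ℕ) × ℕ) → Bool
  | [] => true
  | f :: acc => cond (Nat.beq c f.2 && crs e f.1) false (okc e c acc)

/-- is there a proper colouring with the colours 0, 1, 2 that extends the given one -/
def col3 : List (ℕ × ℕ) → List ((ℕ × ℕ) × ℕ) → Bool
  | [], _ => true
  | e :: es, acc =>
      (okc e 0 acc && col3 es ((e, 0) :: acc)) ||
        ((okc e 1 acc && col3 es ((e, 1) :: acc)) || (okc e 2 acc && col3 es ((e, 2) :: acc)))

/-- the edges are edges of the graph with both ends in the list -/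
def validE (L : List ℕ) : List (ℕ × ℕ) → Bool
  | [] => true
  | e :: es => (tadj e.1 e.2 && (memb e.1 L && memb e.2 L)) && validE L es

/-- no proper colouring of the given edges -/
def bad (L : List ℕ) : List (ℕ × ℕ) → Bool
  | e :: f :: es => (crs (toPos L e) (toPos L f) && validE L (e :: f :: es)) &&
      !(col3 (es.map (toPos L)) [(toPos L f, 1), (toPos L e, 0)])
  | _ => false

/-- decoding of a leaf -/
def dec : ℕ → ℕ → List (ℕ × ℕ)
  | 0, _ => []
  | k + 1, t => cond (Nat.blt t 2) [] ((t % 16, (t / 16) % 16) :: dec k (t / 256))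

/-- equality of two lists of numbers -/
def eqL : List ℕ → List ℕ → Bool
  | [], [] => true
  | a :: l, b :: m => Nat.beq a b && eqL l m
  | _, _ => false

/-- equality of two lists of lists -/
def eqLL : List (List ℕ) → List (List ℕ) → Bool
  | [], [] => true
  | a :: l, b :: m => eqL a b && eqLL l m
  | _, _ => false

/-- the checker: a stack machine which must end with the stack `fin` -/
def check (v0 : ℕ) (fin : List (List ℕ)) : List ℕ → List (List ℕ) → Bool
  | [], st => eqLL st fin
  | _ :: _, [] => false
  | t :: ts, L :: st =>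
      cond (Nat.blt t 16) ((!(memb t (v0 :: L)) && Nat.blt t 10) && check v0 fin ts (ins t L ++ st))
        (bad (v0 :: L) (dec 20 t) && check v0 fin ts st)

/-- a 3-page book embedding of the 10-vertex graph in which `v0` comes first -/
structure Book (v0 : ℕ) (g : ℕ → ℕ) (q : ℕ → ℕ → ℕ) : Prop where
  inj : ∀ a b : ℕ, a < 10 → b < 10 → g a = g b → a = b
  first : ∀ a : ℕ, a < 10 → a ≠ v0 → g v0 < g a
  lt3 : ∀ a b : ℕ, q a b < 3
  symm : ∀ a b : ℕ, q a b = q b a
  cross : ∀ a b c d : ℕ, tadj a b = true → tadj c d = true → g a < g c → g c < g b → g b < g d →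
    q a b ≠ q c d

theorem tadj_lt {a b : ℕ} (h : tadj a b = true) : a < 10 ∧ b < 10 := by
  unfold tadj at h
  rw [Bool.and_eq_true, Bool.and_eq_true] at h
  exact ⟨by simpa using h.1, by simpa using h.2.1⟩

theorem tadj_symm_aux : ∀ a < 10, ∀ b < 10, tadj a b = tadj b a := by decide +kernel

theorem tadj_symm {a b : ℕ} (h : tadj a b = true) : tadj b a = true := by
  have h1 := tadj_lt h
  rw [← tadj_symm_aux a h1.1 b h1.2]
  exact h

theorem memb_iff (x : ℕ) (L : List ℕ) : memb x L = true ↔ x ∈ L := by
  induction L with
  | nil => simp [memb]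
  | cons a l ih =>
      unfold memb
      by_cases h : a = x
      · subst h
        simp
      · have h' : Nat.beq a x = false := by
          cases hb : Nat.beq a x with
          | false => rfl
          | true => exact absurd (Nat.eq_of_beq_eq_true hb) h
        rw [h', cond_false, ih, List.mem_cons]
        constructor
        · exact fun hx => Or.inr hx
        · rintro (hx | hx)
          · exact absurd hx.symm h
          · exact hx

theorem posn_getD (x : ℕ) (L : List ℕ) (h : x ∈ L) : L.getD (posn x L) 0 = x := by
  induction L with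
  | nil => simp at h
  | cons a l ih =>
      unfold posn
      by_cases hx : a = x
      · subst hx
        simp
      · have h' : Nat.beq a x = false := by
          cases hb : Nat.beq a x with
          | false => rfl
          | true => exact absurd (Nat.eq_of_beq_eq_true hb) hx
        rw [h', cond_false, List.getD_cons_succ]
        rcases List.mem_cons.1 h with h1 | h1
        · exact absurd h1.symm hx
        · exact ih h1

theorem posn_lt (g : ℕ → ℕ) (L : List ℕ) (hL : L.Pairwise (fun x y => g x < g y)) (a b : ℕ)
    (hb : b ∈ L) (h : posn a L < posn b L) : g a < g b := by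
  induction L with
  | nil => simp at hb
  | cons x l ih =>
      unfold posn at h
      rw [List.pairwise_cons] at hL
      by_cases hxb : x = b
      · subst hxb
        simp at h
      · have hb' : Nat.beq x b = false := by
          cases hc : Nat.beq x b with
          | false => rfl
          | true => exact absurd (Nat.eq_of_beq_eq_true hc) hxb
        have hbl : b ∈ l := by
          rcases List.mem_cons.1 hb with h1 | h1
          · exact absurd h1.symm hxb
          · exact h1
        rw [hb', cond_false] at h
        by_cases hxa : x = a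
        · subst hxa
          exact hL.1 b hbl
        · have ha' : Nat.beq x a = false := by
            cases hc : Nat.beq x a with
            | false => rfl
            | true => exact absurd (Nat.eq_of_beq_eq_true hc) hxa
          rw [ha', cond_false] at h
          exact ih hL.2 hbl (by omega)

/-- the page of the pair at two positions -/
def Qp (q : ℕ → ℕ → ℕ) (L : List ℕ) (e : ℕ × ℕ) : ℕ := q (L.getD e.1 0) (L.getD e.2 0)

theorem crs_iff (e f : ℕ × ℕ) : crs e f = true ↔
    (e.1 < f.1 ∧ f.1 < e.2 ∧ e.2 < f.2) ∨ (f.1 < e.1 ∧ e.1 < f.2 ∧ f.2 < e.2) := by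
  unfold crs
  simp [Bool.or_eq_true, Bool.and_eq_true]

theorem toPos_cases (L : List ℕ) (e : ℕ × ℕ) :
    (toPos L e = (posn e.1 L, posn e.2 L) ∧ posn e.1 L < posn e.2 L) ∨
      (toPos L e = (posn e.2 L, posn e.1 L) ∧ posn e.2 L ≤ posn e.1 L) := by
  unfold toPos
  by_cases h : posn e.1 L < posn e.2 L
  · left
    have : Nat.blt (posn e.1 L) (posn e.2 L) = true := by simpa using h
    rw [this]
    exact ⟨rfl, h⟩
  · right
    have : Nat.blt (posn e.1 L) (posn e.2 L) = false := by
      cases hb : Nat.blt (posn e.1 L) (posn e.2 L) with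
      | false => rfl
      | true => exact absurd (by simpa using hb) h
    rw [this]
    exact ⟨rfl, Nat.le_of_not_lt h⟩

/-- an edge of the graph with both ends in the list -/
def Val (L : List ℕ) (e : ℕ × ℕ) : Prop := tadj e.1 e.2 = true ∧ e.1 ∈ L ∧ e.2 ∈ L

theorem Qp_toPos {v0 : ℕ} {g : ℕ → ℕ} {q : ℕ → ℕ → ℕ} (hB : Book v0 g q) (L : List ℕ)
    (e : ℕ × ℕ) (he : Val L e) : Qp q L (toPos L e) = q e.1 e.2 := by
  unfold Qp
  rcases toPos_cases L e with ⟨h, _⟩ | ⟨h, _⟩
  · rw [h]
    simp only
    rw [posn_getD _ _ he.2.1, posn_getD _ _ he.2.2]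
  · rw [h]
    simp only
    rw [posn_getD _ _ he.2.1, posn_getD _ _ he.2.2]
    exact hB.symm _ _

theorem cross_aux {v0 : ℕ} {g : ℕ → ℕ} {q : ℕ → ℕ → ℕ} (hB : Book v0 g q) (L : List ℕ)
    (hL : L.Pairwise (fun x y => g x < g y)) (e f : ℕ × ℕ) (he : Val L e) (hf : Val L f)
    (h : (toPos L e).1 < (toPos L f).1 ∧ (toPos L f).1 < (toPos L e).2 ∧
      (toPos L e).2 < (toPos L f).2) : q e.1 e.2 ≠ q f.1 f.2 := by
  obtain ⟨h1, h2, h3⟩ := h
  rcases toPos_cases L e with ⟨h4, h5⟩ | ⟨h4, h5⟩ <;> rcases toPos_cases L f with ⟨h6, h7⟩ | ⟨h6, h7⟩ <;>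
    rw [h4, h6] at h1 h2 h3 <;> simp only at h1 h2 h3
  · exact hB.cross _ _ _ _ he.1 hf.1 (posn_lt g L hL _ _ hf.2.1 h1) (posn_lt g L hL _ _ he.2.2 h2)
      (posn_lt g L hL _ _ hf.2.2 h3)
  · rw [hB.symm f.1 f.2]
    exact hB.cross _ _ _ _ he.1 (tadj_symm hf.1) (posn_lt g L hL _ _ hf.2.2 h1)
      (posn_lt g L hL _ _ he.2.2 h2) (posn_lt g L hL _ _ hf.2.1 h3)
  · rw [hB.symm e.1 e.2]
    exact hB.cross _ _ _ _ (tadj_symm he.1) hf.1 (posn_lt g L hL _ _ hf.2.1 h1)
      (posn_lt g L hL _ _ he.2.1 h2) (posn_lt g L hL _ _ hf.2.2 h3)
  · rw [hB.symm e.1 e.2, hB.symm f.1 f.2]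
    exact hB.cross _ _ _ _ (tadj_symm he.1) (tadj_symm hf.1) (posn_lt g L hL _ _ hf.2.2 h1)
      (posn_lt g L hL _ _ he.2.1 h2) (posn_lt g L hL _ _ hf.2.1 h3)

theorem crs_ne {v0 : ℕ} {g : ℕ → ℕ} {q : ℕ → ℕ → ℕ} (hB : Book v0 g q) (L : List ℕ)
    (hL : L.Pairwise (fun x y => g x < g y)) (e f : ℕ × ℕ) (he : Val L e) (hf : Val L f)
    (h : crs (toPos L e) (toPos L f) = true) :
    Qp q L (toPos L e) ≠ Qp q L (toPos L f) := by
  rw [Qp_toPos hB L e he, Qp_toPos hB L f hf]
  rcases (crs_iff _ _).1 h with h1 | h1
  · exact cross_aux hB L hL e f he hf h1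
  · exact (cross_aux hB L hL f e hf he h1).symm

theorem okc_true {v0 : ℕ} {g : ℕ → ℕ} {q : ℕ → ℕ → ℕ} (hB : Book v0 g q) (L : List ℕ)
    (hL : L.Pairwise (fun x y => g x < g y)) (κ : ℕ → ℕ) (e : ℕ × ℕ) (he : Val L e) (c : ℕ)
    (hc : κ c = Qp q L (toPos L e)) (acc : List ((ℕ × ℕ) × ℕ))
    (hacc : ∀ x ∈ acc, ∃ f : ℕ × ℕ, Val L f ∧ x.1 = toPos L f ∧ κ x.2 = Qp q L (toPos L f)) :
    okc (toPos L e) c acc = true := by
  induction acc with
  | nil => rfl
  | cons x acc ih =>
      unfold okc
      have hx := hacc x (List.mem_cons_self)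
      obtain ⟨f, hf, hx1, hx2⟩ := hx
      have hfalse : (Nat.beq c x.2 && crs (toPos L e) x.1) = false := by
        cases hb : (Nat.beq c x.2 && crs (toPos L e) x.1) with
        | false => rfl
        | true =>
            rw [Bool.and_eq_true] at hb
            have h1 : c = x.2 := Nat.eq_of_beq_eq_true hb.1
            have h2 := hb.2
            rw [hx1] at h2
            have h3 := crs_ne hB L hL e f he hf h2
            exfalso
            apply h3
            rw [← hc, h1, hx2]
      rw [hfalse, cond_false]
      exact ih (fun y hy => hacc y (List.mem_cons_of_mem _ hy))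

theorem col3_true {v0 : ℕ} {g : ℕ → ℕ} {q : ℕ → ℕ → ℕ} (hB : Book v0 g q) (L : List ℕ)
    (hL : L.Pairwise (fun x y => g x < g y)) (κ : ℕ → ℕ)
    (hκ : ∀ m : ℕ, m < 3 → κ 0 = m ∨ κ 1 = m ∨ κ 2 = m) (es : List (ℕ × ℕ))
    (hes : ∀ e ∈ es, Val L e) (acc : List ((ℕ × ℕ) × ℕ))
    (hacc : ∀ x ∈ acc, ∃ f : ℕ × ℕ, Val L f ∧ x.1 = toPos L f ∧ κ x.2 = Qp q L (toPos L f)) :
    col3 (es.map (toPos L)) acc = true := by
  induction es generalizing acc with
  | nil => rfl
  | cons e es ih =>
      rw [List.map_cons]
      unfold col3
      have he := hes e (List.mem_cons_self)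
      have hes' : ∀ e ∈ es, Val L e := fun y hy => hes y (List.mem_cons_of_mem _ hy)
      have hstep : ∀ c : ℕ, κ c = Qp q L (toPos L e) →
          (okc (toPos L e) c acc && col3 (es.map (toPos L)) ((toPos L e, c) :: acc)) = true := by
        intro c hc
        rw [okc_true hB L hL κ e he c hc acc hacc, Bool.true_and]
        apply ih hes'
        intro x hx
        rcases List.mem_cons.1 hx with h1 | h1
        · subst h1
          exact ⟨e, he, rfl, hc⟩
        · exact hacc x h1
      have hlt : Qp q L (toPos L e) < 3 := hB.lt3 _ _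
      rcases hκ _ hlt with h0 | h0 | h0
      · rw [hstep 0 h0, Bool.true_or]
      · rw [hstep 1 h0, Bool.true_or, Bool.or_true]
      · rw [hstep 2 h0, Bool.or_true, Bool.or_true]

theorem validE_spec (L : List ℕ) (es : List (ℕ × ℕ)) (h : validE L es = true) :
    ∀ e ∈ es, Val L e := by
  induction es with
  | nil => simp
  | cons e es ih =>
      unfold validE at h
      rw [Bool.and_eq_true, Bool.and_eq_true, Bool.and_eq_true] at h
      intro f hf
      rcases List.mem_cons.1 hf with h1 | h1
      · subst h1
        exact ⟨h.1.1, (memb_iff _ _).1 h.1.2.1, (memb_iff _ _).1 h.1.2.2⟩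
      · exact ih h.2 f h1

theorem bad_false {v0 : ℕ} {g : ℕ → ℕ} {q : ℕ → ℕ → ℕ} (hB : Book v0 g q) (L : List ℕ)
    (hL : L.Pairwise (fun x y => g x < g y)) (es : List (ℕ × ℕ)) : bad L es = false := by
  match es with
  | [] => rfl
  | [_] => rfl
  | e :: f :: es =>
      cases hb : bad L (e :: f :: es) with
      | false => rfl
      | true =>
          exfalso
          unfold bad at hb
          rw [Bool.and_eq_true, Bool.and_eq_true] at hb
          obtain ⟨⟨h1, h2⟩, h3⟩ := hb
          have hv := validE_spec L _ h2
          have he : Val L e := hv e (by simp)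
          have hf : Val L f := hv f (by simp)
          have hes : ∀ x ∈ es, Val L x := fun x hx => hv x (by simp [hx])
          have hne := crs_ne hB L hL e f he hf h1
          set A := Qp q L (toPos L e) with hA
          set B := Qp q L (toPos L f) with hBd
          have hA3 : A < 3 := hB.lt3 _ _
          have hB3 : B < 3 := hB.lt3 _ _
          let κ : ℕ → ℕ := fun k => if k = 0 then A else if k = 1 then B else 3 - A - B
          have hκ : ∀ m : ℕ, m < 3 → κ 0 = m ∨ κ 1 = m ∨ κ 2 = m := by
            intro m hm
            show (if (0 : ℕ) = 0 then A else if (0 : ℕ) = 1 then B else 3 - A - B) = m ∨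
              (if (1 : ℕ) = 0 then A else if (1 : ℕ) = 1 then B else 3 - A - B) = m ∨
              (if (2 : ℕ) = 0 then A else if (2 : ℕ) = 1 then B else 3 - A - B) = m
            simp only [if_true, one_ne_zero, if_false, OfNat.ofNat_ne_zero, OfNat.ofNat_ne_one]
            omega
          have := col3_true hB L hL κ hκ es hes [(toPos L f, 1), (toPos L e, 0)] (by
            intro x hx
            rcases List.mem_cons.1 hx with h4 | h4
            · subst h4
              exact ⟨f, hf, rfl, rfl⟩
            · rw [List.mem_singleton] at h4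
              subst h4
              exact ⟨e, he, rfl, rfl⟩)
          rw [this] at h3
          exact absurd h3 (by decide)

theorem ins_sorted (g : ℕ → ℕ) (v : ℕ) (L : List ℕ) (hL : L.Pairwise (fun x y => g x < g y))
    (hv : ∀ a ∈ L, g a ≠ g v) : ∃ l ∈ ins v L, l.Pairwise (fun x y => g x < g y) ∧
      ∀ a ∈ l, a = v ∨ a ∈ L := by
  induction L with
  | nil => exact ⟨[v], by simp [ins], by simp, by simp⟩
  | cons a l ih =>
      have hL' := hL
      rw [List.pairwise_cons] at hL
      by_cases h : g v < g a
      · refine ⟨v :: a :: l, by simp [ins], ?_, ?_⟩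
        · rw [List.pairwise_cons]
          refine ⟨?_, hL'⟩
          intro b hb
          rcases List.mem_cons.1 hb with h1 | h1
          · rw [h1]
            exact h
          · exact lt_trans h (hL.1 b h1)
        · intro b hb
          rcases List.mem_cons.1 hb with h1 | h1
          · exact Or.inl h1
          · exact Or.inr h1
      · have hne := hv a (List.mem_cons_self)
        have hlt : g a < g v := by omega
        obtain ⟨l', hl1, hl2, hl3⟩ := ih hL.2 (fun b hb => hv b (List.mem_cons_of_mem _ hb))
        refine ⟨a :: l', ?_, ?_, ?_⟩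
        · unfold ins
          exact List.mem_cons_of_mem _ (List.mem_map.2 ⟨l', hl1, rfl⟩)
        · rw [List.pairwise_cons]
          refine ⟨?_, hl2⟩
          intro b hb
          rcases hl3 b hb with h1 | h1
          · rw [h1]
            exact hlt
          · exact hL.1 b h1
        · intro b hb
          rcases List.mem_cons.1 hb with h1 | h1
          · exact Or.inr (h1 ▸ List.mem_cons_self)
          · rcases hl3 b h1 with h2 | h2
            · exact Or.inl h2
            · exact Or.inr (List.mem_cons_of_mem _ h2)

theorem eqL_eq (a b : List ℕ) (h : eqL a b = true) : a = b := by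
  induction a generalizing b with
  | nil =>
      cases b with
      | nil => rfl
      | cons y m => simp [eqL] at h
  | cons x l ih =>
      cases b with
      | nil => simp [eqL] at h
      | cons y m =>
          unfold eqL at h
          rw [Bool.and_eq_true] at h
          rw [Nat.eq_of_beq_eq_true h.1, ih m h.2]

theorem eqLL_eq (a b : List (List ℕ)) (h : eqLL a b = true) : a = b := by
  induction a generalizing b with
  | nil =>
      cases b with
      | nil => rfl
      | cons y m => simp [eqLL] at h
  | cons x l ih =>
      cases b with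
      | nil => simp [eqLL] at h
      | cons y m =>
          unfold eqLL at h
          rw [Bool.and_eq_true] at h
          rw [eqL_eq x y h.1, ih m h.2]

/-- every layout in the stack is impossible -/
def Ref (v0 : ℕ) (g : ℕ → ℕ) (st : List (List ℕ)) : Prop :=
  ∀ L ∈ st, (∀ a ∈ L, a < 10) → ¬ (v0 :: L).Pairwise (fun x y => g x < g y)

theorem check_sound {v0 : ℕ} {g : ℕ → ℕ} {q : ℕ → ℕ → ℕ} (hB : Book v0 g q)
    (fin : List (List ℕ)) (hfin : Ref v0 g fin) (ts : List ℕ)
    (st : List (List ℕ)) (h : check v0 fin ts st = true) : Ref v0 g st := by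
  induction ts generalizing st with
  | nil =>
      unfold check at h
      rw [eqLL_eq _ _ h]
      exact hfin
  | cons t ts ih =>
      cases st with
      | nil =>
          intro L hL
          simp at hL
      | cons L st =>
          unfold check at h
          by_cases ht : t < 16
          · have ht' : Nat.blt t 16 = true := by simpa using ht
            rw [ht', cond_true, Bool.and_eq_true, Bool.and_eq_true] at h
            obtain ⟨⟨h1, h2⟩, h3⟩ := h
            have h2' : t < 10 := by simpa using h2
            have h1' : t ∉ v0 :: L := by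
              intro hm
              rw [(memb_iff _ _).2 hm] at h1
              exact absurd h1 (by decide)
            intro M hM hM10 hMs
            rcases List.mem_cons.1 hM with h4 | h4
            · subst h4
              have htv : t ≠ v0 := fun h5 => h1' (h5 ▸ List.mem_cons_self)
              rw [List.pairwise_cons] at hMs
              obtain ⟨l, hl1, hl2, hl3⟩ := ins_sorted g t M hMs.2 (by
                intro a ha hga
                have := hB.inj a t (hM10 a ha) h2' hga
                exact h1' (List.mem_cons_of_mem _ (this ▸ ha)))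
              refine ih _ h3 l (List.mem_append_left _ hl1) ?_ ?_
              · intro a ha
                rcases hl3 a ha with h5 | h5
                · rw [h5]
                  exact h2'
                · exact hM10 a h5
              · rw [List.pairwise_cons]
                refine ⟨?_, hl2⟩
                intro a ha
                rcases hl3 a ha with h5 | h5
                · rw [h5]
                  exact hB.first t h2' htv
                · exact hMs.1 a h5
            · exact ih _ h3 M (List.mem_append_right _ h4) hM10 hMs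
          · have ht' : Nat.blt t 16 = false := by
              cases hb : Nat.blt t 16 with
              | false => rfl
              | true => exact absurd (by simpa using hb) ht
            rw [ht', cond_false, Bool.and_eq_true] at h
            intro M hM hM10 hMs
            rcases List.mem_cons.1 hM with h4 | h4
            · subst h4
              rw [bad_false hB (v0 :: M) hMs] at h
              exact absurd h.1 (by decide)
            · exact ih _ h.2 M h4 hM10 hMs

end Pool.Agent.Lib.MP_cd28a7_co
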