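import Pool.Agent.Lib.MP_cd28a7_co.NineNodes

set_option autoImplicit false

namespace Pool.Agent.Lib.MP_cd28a7_co

theorem ndRun0 : chkN nd0 pv0 = true := by decide +kernel

theorem pv1_good : ∀ t ∈ pv1, Good t := chkN_good nd0 pv0 pv0_good ndRun0

theorem ndRun1 : chkN nd1 pv1 = true := by decide +kernel

theorem pv2_good : ∀ t ∈ pv2, Good t := chkN_good nd1 pv1 pv1_good ndRun1

theorem ndRun2 : chkN nd2 pv2 = true := by decide +kernel

theorem pv3_good : ∀ t ∈ pv3, Good t := chkN_good nd2 pv2 pv2_good ndRun2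

theorem ndRun3 : chkN nd3 pv3 = true := by decide +kernel

theorem pv4_good : ∀ t ∈ pv4, Good t := chkN_good nd3 pv3 pv3_good ndRun3

theorem ndRun4 : chkN nd4 pv4 = true := by decide +kernel

theorem pv5_good : ∀ t ∈ pv5, Good t := chkN_good nd4 pv4 pv4_good ndRun4

theorem ndRun5 : chkN nd5 pv5 = true := by decide +kernel

theorem pv6_good : ∀ t ∈ pv6, Good t := chkN_good nd5 pv5 pv5_good ndRun5

theorem ndRun6 : chkN nd6 pv6 = true := by decide +kernel

theorem pv7_good : ∀ t ∈ pv7, Good t := chkN_good nd6 pv6 pv6_good ndRun6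

theorem ndRun7 : chkN nd7 pv7 = true := by decide +kernel

theorem pv8_good : ∀ t ∈ pv8, Good t := chkN_good nd7 pv7 pv7_good ndRun7

theorem ndRun8 : chkN nd8 pv8 = true := by decide +kernel

theorem pv9_good : ∀ t ∈ pv9, Good t := chkN_good nd8 pv8 pv8_good ndRun8

theorem ndRun9 : chkN nd9 pv9 = true := by decide +kernel

theorem pv10_good : ∀ t ∈ pv10, Good t := chkN_good nd9 pv9 pv9_good ndRun9

theorem ndRun10 : chkN nd10 pv10 = true := by decide +kernel

theorem pv11_good : ∀ t ∈ pv11, Good t := chkN_good nd10 pv10 pv10_good ndRun10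

theorem ndRun11 : chkN nd11 pv11 = true := by decide +kernel

theorem pv12_good : ∀ t ∈ pv12, Good t := chkN_good nd11 pv11 pv11_good ndRun11

theorem ndRun12 : chkN nd12 pv12 = true := by decide +kernel

theorem pv13_good : ∀ t ∈ pv13, Good t := chkN_good nd12 pv12 pv12_good ndRun12

theorem full_mem : memb 302674681692883274691070 pv13 = true := by decide +kernel

/-- every set of pairs without three pairwise crossing ones has a 3-page book embedding -/
theorem nine (R : ℕ → ℕ → Prop) (hR : Rel9 R) : Three R := by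
  refine pv13_good _ ((memb_iff _ _).1 full_mem) R hR ?_
  intro a b hab
  have h := hR.lt a b hab
  have ha : a < 9 := lt_trans h.1 h.2
  have hb : b < 9 := h.2
  have hlt := h.1
  clear hab h
  interval_cases b <;> interval_cases a <;> decide

end Pool.Agent.Lib.MP_cd28a7_co
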