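import Pool.Agent.Lib.MP_cd28a7_co.Check

set_option autoImplicit false

/-! Nine vertices: a decision diagram which shows that every circular graph on nine points without
three pairwise crossing edges has a 3-page book embedding. -/

namespace Pool.Agent.Lib.MP_cd28a7_co

/-- crossing of two pairs, natural order -/
def CrP (a b c d : ℕ) : Prop := (a < c ∧ c < b ∧ b < d) ∨ (c < a ∧ a < d ∧ d < b)

/-- a set of pairs of points of the 9-gon -/
structure Rel9 (R : ℕ → ℕ → Prop) : Prop where
  lt : ∀ a b : ℕ, R a b → a < b ∧ b < 9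
  no3 : ∀ a b c d e g : ℕ, R a b → R c d → R e g → ¬ (CrP a b c d ∧ CrP a b e g ∧ CrP c d e g)

/-- contained in the set coded by `m` -/
def Sub9 (R : ℕ → ℕ → Prop) (m : ℕ) : Prop :=
  ∀ a b : ℕ, R a b → Nat.testBit m (10 * a + b) = true

/-- has a 3-page book embedding -/
def Three (R : ℕ → ℕ → Prop) : Prop :=
  ∃ h : ℕ → ℕ, (∀ a b : ℕ, a < 9 → b < 9 → h a = h b → a = b) ∧
    ∃ p : ℕ → ℕ → ℕ, (∀ a b : ℕ, p a b < 3) ∧
      ∀ a b c d : ℕ, (R a b ∨ R b a) → (R c d ∨ R d c) → h a < h c → h c < h b → h b < h d →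
        p a b ≠ p c d

/-- the set `m` is good -/
def Good (m : ℕ) : Prop := ∀ R : ℕ → ℕ → Prop, Rel9 R → Sub9 R m → Three R

/-- the colour digit of a pair code -/
def cdig (ct k : ℕ) : ℕ := ((ct / 4 ^ k) % 4) % 3

/-- the 36 pairs -/
def pairs36 : List (ℕ × ℕ) :=
  [(0, 1), (0, 2), (0, 3), (0, 4), (0, 5), (0, 6), (0, 7), (0, 8), (1, 2), (1, 3), (1, 4), (1, 5),
    (1, 6), (1, 7), (1, 8), (2, 3), (2, 4), (2, 5), (2, 6), (2, 7), (2, 8), (3, 4), (3, 5), (3, 6),
    (3, 7), (3, 8), (4, 5), (4, 6), (4, 7), (4, 8), (5, 6), (5, 7), (5, 8), (6, 7), (6, 8), (7, 8)]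

theorem pairs36_mem : ∀ a b : ℕ, a < b → b < 9 → (a, b) ∈ pairs36 := by
  intro a b hab hb
  have ha : a < 9 := lt_trans hab hb
  interval_cases b <;> interval_cases a <;> decide

/-- the pairs of colour `c` -/
def pageOf (M ct c : ℕ) : List (ℕ × ℕ) → List (ℕ × ℕ)
  | [] => []
  | e :: es => cond (Nat.testBit M (10 * e.1 + e.2) && Nat.beq (cdig ct (10 * e.1 + e.2)) c)
      (e :: pageOf M ct c es) (pageOf M ct c es)

/-- no two pairs cross -/
def noCr (E : List (ℕ × ℕ)) : Bool := E.all fun x => E.all fun y => !(crs x y)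

/-- the bank entry is correct -/
def bankOk (e : ℕ × List ℕ × ℕ) : Bool :=
  (memb 0 e.2.1 && (memb 1 e.2.1 && (memb 2 e.2.1 && (memb 3 e.2.1 && (memb 4 e.2.1 &&
    (memb 5 e.2.1 && (memb 6 e.2.1 && (memb 7 e.2.1 && memb 8 e.2.1)))))))) &&
  (noCr ((pageOf e.1 e.2.2 0 pairs36).map (toPos e.2.1)) &&
    (noCr ((pageOf e.1 e.2.2 1 pairs36).map (toPos e.2.1)) &&
      noCr ((pageOf e.1 e.2.2 2 pairs36).map (toPos e.2.1))))

theorem pageOf_mem (M ct c : ℕ) (L : List (ℕ × ℕ)) (e : ℕ × ℕ) (he : e ∈ L)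
    (h1 : Nat.testBit M (10 * e.1 + e.2) = true) (h2 : cdig ct (10 * e.1 + e.2) = c) :
    e ∈ pageOf M ct c L := by
  induction L with
  | nil => simp at he
  | cons f L ih =>
      unfold pageOf
      rcases List.mem_cons.1 he with h3 | h3
      · subst h3
        rw [h1, h2, Nat.beq_refl]
        simp
      · cases hb : (Nat.testBit M (10 * f.1 + f.2) && Nat.beq (cdig ct (10 * f.1 + f.2)) c) with
        | true => exact List.mem_cons_of_mem _ (ih h3)
        | false => exact ih h3

theorem noCr_spec (E : List (ℕ × ℕ)) (h : noCr E = true) (x y : ℕ × ℕ) (hx : x ∈ E) (hy : y ∈ E) :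
    crs x y = false := by
  have h1 := List.all_eq_true.1 h x hx
  have h2 := List.all_eq_true.1 h1 y hy
  simpa using h2

/-- the sorted pair -/
def srt (a b : ℕ) : ℕ × ℕ := if a < b then (a, b) else (b, a)

theorem bank_good (e : ℕ × List ℕ × ℕ) (h : bankOk e = true) : Good e.1 := by
  obtain ⟨M, ord, ct⟩ := e
  unfold bankOk at h
  simp only [Bool.and_eq_true] at h
  obtain ⟨⟨m0, m1, m2, m3, m4, m5, m6, m7, m8⟩, n0, n1, n2⟩ := h
  have hmem : ∀ a : ℕ, a < 9 → a ∈ ord := by
    intro a ha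
    rw [← memb_iff]
    interval_cases a <;> assumption
  intro R hR hS
  refine ⟨fun a => posn a ord, ?_, fun a b => cdig ct (10 * (srt a b).1 + (srt a b).2), ?_, ?_⟩
  · intro a b ha hb hab
    have h1 := posn_getD a ord (hmem a ha)
    have h2 := posn_getD b ord (hmem b hb)
    have h3 : posn a ord = posn b ord := hab
    rw [← h1, ← h2, h3]
  · intro a b
    exact Nat.mod_lt _ (by norm_num)
  · intro a b c d hab hcd h1 h2 h3 heq
    have key : ∀ x y : ℕ, (R x y ∨ R y x) → srt x y ∈ pairs36 ∧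
        Nat.testBit M (10 * (srt x y).1 + (srt x y).2) = true ∧
        ((srt x y) = (x, y) ∨ (srt x y) = (y, x)) := by
      intro x y hxy
      rcases hxy with h4 | h4
      · have h5 := hR.lt x y h4
        have h6 : srt x y = (x, y) := if_pos h5.1
        rw [h6]
        exact ⟨pairs36_mem x y h5.1 h5.2, hS x y h4, Or.inl rfl⟩
      · have h5 := hR.lt y x h4
        have h6 : srt x y = (y, x) := if_neg (by omega)
        rw [h6]
        exact ⟨pairs36_mem y x h5.1 h5.2, hS y x h4, Or.inr rfl⟩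
    obtain ⟨p1, p2, p3⟩ := key a b hab
    obtain ⟨q1, q2, q3⟩ := key c d hcd
    have hc3 : cdig ct (10 * (srt a b).1 + (srt a b).2) < 3 := Nat.mod_lt _ (by norm_num)
    have heq' : cdig ct (10 * (srt c d).1 + (srt c d).2) =
      cdig ct (10 * (srt a b).1 + (srt a b).2) := heq.symm
    have e1 : srt a b ∈ pageOf M ct (cdig ct (10 * (srt a b).1 + (srt a b).2)) pairs36 :=
      pageOf_mem _ _ _ _ _ p1 p2 rfl
    have e2 : srt c d ∈ pageOf M ct (cdig ct (10 * (srt a b).1 + (srt a b).2)) pairs36 :=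
      pageOf_mem _ _ _ _ _ q1 q2 heq'
    have hall : noCr ((pageOf M ct (cdig ct (10 * (srt a b).1 + (srt a b).2)) pairs36).map
        (toPos ord)) = true := by
      generalize cdig ct (10 * (srt a b).1 + (srt a b).2) = z at hc3
      interval_cases z
      · exact n0
      · exact n1
      · exact n2
    have hcr := noCr_spec _ hall (toPos ord (srt a b)) (toPos ord (srt c d))
      (List.mem_map.2 ⟨_, e1, rfl⟩) (List.mem_map.2 ⟨_, e2, rfl⟩)
    have h1' : posn a ord < posn c ord := h1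
    have h2' : posn c ord < posn b ord := h2
    have h3' : posn b ord < posn d ord := h3
    have t1 : toPos ord (srt a b) = (posn a ord, posn b ord) := by
      rcases p3 with h4 | h4
      · rw [h4]
        rcases toPos_cases ord (a, b) with ⟨h5, _⟩ | ⟨_, h6⟩
        · exact h5
        · have h7 : posn b ord ≤ posn a ord := h6
          omega
      · rw [h4]
        rcases toPos_cases ord (b, a) with ⟨_, h6⟩ | ⟨h5, _⟩
        · have h7 : posn b ord < posn a ord := h6
          omega
        · exact h5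
    have t2 : toPos ord (srt c d) = (posn c ord, posn d ord) := by
      rcases q3 with h4 | h4
      · rw [h4]
        rcases toPos_cases ord (c, d) with ⟨h5, _⟩ | ⟨_, h6⟩
        · exact h5
        · have h7 : posn d ord ≤ posn c ord := h6
          omega
      · rw [h4]
        rcases toPos_cases ord (d, c) with ⟨_, h6⟩ | ⟨h5, _⟩
        · have h7 : posn d ord < posn c ord := h6
          omega
        · exact h5
    rw [t1, t2] at hcr
    have hcr2 : crs (posn a ord, posn b ord) (posn c ord, posn d ord) = true :=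
      (crs_iff _ _).2 (Or.inl ⟨h1', h2', h3'⟩)
    rw [hcr2] at hcr
    exact absurd hcr (by decide)

/-- list access -/
def nth : List ℕ → ℕ → Option ℕ
  | [], _ => none
  | a :: _, 0 => some a
  | _ :: l, k + 1 => nth l k

theorem nth_mem (L : List ℕ) (k a : ℕ) (h : nth L k = some a) : a ∈ L := by
  induction L generalizing k with
  | nil => simp [nth] at h
  | cons b l ih =>
      cases k with
      | zero =>
          simp only [nth, Option.some.injEq] at h
          subst h
          exact List.mem_cons_self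
      | succ k => exact List.mem_cons_of_mem _ (ih k h)

/-- the set `m` without the pair `x` is contained in the referenced set -/
def childOk (m x : ℕ) : Option ℕ → Bool
  | none => false
  | some t => Nat.beq (Nat.lor m (Nat.lor t (2 ^ x))) (Nat.lor t (2 ^ x))

/-- the node is correct with respect to the list of good sets -/
def nodeOk (L : List ℕ) (nd : ℕ × (ℕ × ℕ × ℕ) × (ℕ × ℕ × ℕ)) : Bool :=
  (crs (nd.2.1.1 / 10, nd.2.1.1 % 10) (nd.2.1.2.1 / 10, nd.2.1.2.1 % 10) &&
    (crs (nd.2.1.1 / 10, nd.2.1.1 % 10) (nd.2.1.2.2 / 10, nd.2.1.2.2 % 10) &&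
      crs (nd.2.1.2.1 / 10, nd.2.1.2.1 % 10) (nd.2.1.2.2 / 10, nd.2.1.2.2 % 10))) &&
  (childOk nd.1 nd.2.1.1 (nth L nd.2.2.1) && (childOk nd.1 nd.2.1.2.1 (nth L nd.2.2.2.1) &&
    childOk nd.1 nd.2.1.2.2 (nth L nd.2.2.2.2)))

theorem child_sub (m x t : ℕ) (h : childOk m x (some t) = true) (R : ℕ → ℕ → Prop) (hR : Rel9 R)
    (hS : Sub9 R m) (hx : ¬ R (x / 10) (x % 10)) : Sub9 R t := by
  intro a b hab
  have h1 : Nat.lor m (Nat.lor t (2 ^ x)) = Nat.lor t (2 ^ x) := Nat.eq_of_beq_eq_true h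
  have h2 : (m ||| (t ||| 2 ^ x)).testBit (10 * a + b) = (t ||| 2 ^ x).testBit (10 * a + b) :=
    congrArg (fun z => Nat.testBit z (10 * a + b)) h1
  rw [Nat.testBit_or, Nat.testBit_or, hS a b hab, Bool.true_or, Nat.testBit_two_pow] at h2
  have hlt := hR.lt a b hab
  have hne : ¬ (x = 10 * a + b) := by
    intro hxe
    apply hx
    have h3 : x / 10 = a := by omega
    have h4 : x % 10 = b := by omega
    rw [h3, h4]
    exact hab
  rw [decide_eq_false hne, Bool.or_false] at h2
  exact h2.symm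

theorem node_good (L : List ℕ) (hL : ∀ t ∈ L, Good t) (nd : ℕ × (ℕ × ℕ × ℕ) × (ℕ × ℕ × ℕ))
    (h : nodeOk L nd = true) : Good nd.1 := by
  obtain ⟨m, ⟨x, y, z⟩, ⟨r, s, u⟩⟩ := nd
  unfold nodeOk at h
  simp only [Bool.and_eq_true] at h
  obtain ⟨⟨c1, c2, c3⟩, k1, k2, k3⟩ := h
  intro R hR hS
  have step : ∀ w i : ℕ, childOk m w (nth L i) = true → ¬ R (w / 10) (w % 10) → Three R := by
    intro w i hw hRw
    cases hn : nth L i with
    | none =>
        rw [hn] at hw
        exact absurd hw (by simp [childOk])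
    | some t =>
        rw [hn] at hw
        exact hL t (nth_mem L i t hn) R hR (child_sub m w t hw R hR hS hRw)
  by_cases h1 : R (x / 10) (x % 10)
  · by_cases h2 : R (y / 10) (y % 10)
    · by_cases h3 : R (z / 10) (z % 10)
      · exfalso
        exact hR.no3 _ _ _ _ _ _ h1 h2 h3
          ⟨(crs_iff _ _).1 c1, (crs_iff _ _).1 c2, (crs_iff _ _).1 c3⟩
      · exact step z u k3 h3
    · exact step y s k2 h2
  · exact step x r k1 h1

/-- all nodes of the list are correct -/
def chkN : List (ℕ × (ℕ × ℕ × ℕ) × (ℕ × ℕ × ℕ)) → List ℕ → Bool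
  | [], _ => true
  | nd :: ns, L => nodeOk L nd && chkN ns (nd.1 :: L)

/-- the list of good sets after the nodes -/
def ext : List (ℕ × (ℕ × ℕ × ℕ) × (ℕ × ℕ × ℕ)) → List ℕ → List ℕ
  | [], L => L
  | nd :: ns, L => ext ns (nd.1 :: L)

theorem chkN_good (ns : List (ℕ × (ℕ × ℕ × ℕ) × (ℕ × ℕ × ℕ))) (L : List ℕ)
    (hL : ∀ t ∈ L, Good t) (h : chkN ns L = true) : ∀ t ∈ ext ns L, Good t := by
  induction ns generalizing L with
  | nil => exact hL
  | cons nd ns ih =>
      unfold chkN at h
      rw [Bool.and_eq_true] at h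
      unfold ext
      apply ih _ _ h.2
      intro t ht
      rcases List.mem_cons.1 ht with h1 | h1
      · rw [h1]
        exact node_good L hL nd h.1
      · exact hL t h1

theorem banks_good (l : List (ℕ × List ℕ × ℕ)) (h : (l.all bankOk) = true) :
    ∀ t ∈ l.map Prod.fst, Good t := by
  intro t ht
  obtain ⟨e, he, rfl⟩ := List.mem_map.1 ht
  exact bank_good e (List.all_eq_true.1 h e he)

end Pool.Agent.Lib.MP_cd28a7_co
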