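import Pool.Agent.Lib.MP_cd28a7_co.Stacks

set_option autoImplicit false

namespace Pool.Agent.Lib.MP_cd28a7_co

theorem run12 : check 3 stk13 tok12 stk12 = true := by decide +kernel

theorem run13 : check 3 stk14 tok13 stk13 = true := by decide +kernel

theorem run14 : check 3 stk15 tok14 stk14 = true := by decide +kernel

theorem run15 : check 3 stk16 tok15 stk15 = true := by decide +kernel

theorem run16 : check 3 stk17 tok16 stk16 = true := by decide +kernel

theorem run17 : check 3 stk18 tok17 stk17 = true := by decide +kernel

theorem run18 : check 3 stk19 tok18 stk18 = true := by decide +kernel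

theorem run19 : check 3 stk20 tok19 stk19 = true := by decide +kernel

theorem run20 : check 3 stk21 tok20 stk20 = true := by decide +kernel

theorem run21 : check 3 stk22 tok21 stk21 = true := by decide +kernel

theorem run22 : check 3 stk23 tok22 stk22 = true := by decide +kernel

theorem run23 : check 3 stk24 tok23 stk23 = true := by decide +kernel

end Pool.Agent.Lib.MP_cd28a7_co
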