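import Pool.Agent.Lib.MP_cd28a7_co.Stacks

set_option autoImplicit false

namespace Pool.Agent.Lib.MP_cd28a7_co

theorem run24 : check 3 stk25 tok24 stk24 = true := by decide +kernel

theorem run25 : check 3 stk26 tok25 stk25 = true := by decide +kernel

theorem run26 : check 3 stk27 tok26 stk26 = true := by decide +kernel

theorem run27 : check 3 stk28 tok27 stk27 = true := by decide +kernel

theorem run28 : check 3 stk29 tok28 stk28 = true := by decide +kernel

theorem run29 : check 3 stk30 tok29 stk29 = true := by decide +kernel

theorem run30 : check 3 stk31 tok30 stk30 = true := by decide +kernel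

theorem run31 : check 3 stk32 tok31 stk31 = true := by decide +kernel

theorem run32 : check 3 stk33 tok32 stk32 = true := by decide +kernel

theorem run33 : check 3 stk34 tok33 stk33 = true := by decide +kernel

theorem run34 : check 3 stk35 tok34 stk34 = true := by decide +kernel

theorem run35 : check 3 stk36 tok35 stk35 = true := by decide +kernel

end Pool.Agent.Lib.MP_cd28a7_co
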