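import Pool.Agent.Lib.MP_cd28a7_co.Stacks

set_option autoImplicit false

namespace Pool.Agent.Lib.MP_cd28a7_co

theorem run36 : check 3 stk37 tok36 stk36 = true := by decide +kernel

theorem run37 : check 3 stk38 tok37 stk37 = true := by decide +kernel

theorem run38 : check 3 stk39 tok38 stk38 = true := by decide +kernel

theorem run39 : check 3 stk40 tok39 stk39 = true := by decide +kernel

theorem run40 : check 3 stk41 tok40 stk40 = true := by decide +kernel

theorem run41 : check 3 stk42 tok41 stk41 = true := by decide +kernel

theorem run42 : check 3 stk43 tok42 stk42 = true := by decide +kernel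

theorem run43 : check 3 stk44 tok43 stk43 = true := by decide +kernel

theorem run44 : check 3 stk45 tok44 stk44 = true := by decide +kernel

theorem run45 : check 3 stk46 tok45 stk45 = true := by decide +kernel

theorem run46 : check 3 stk47 tok46 stk46 = true := by decide +kernel

theorem run47 : check 3 stk48 tok47 stk47 = true := by decide +kernel

end Pool.Agent.Lib.MP_cd28a7_co
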