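import Pool.Agent.Lib.MP_cd28a7_co.RunA
import Pool.Agent.Lib.MP_cd28a7_co.RunB
import Pool.Agent.Lib.MP_cd28a7_co.RunC
import Pool.Agent.Lib.MP_cd28a7_co.RunD

set_option autoImplicit false

namespace Pool.Agent.Lib.MP_cd28a7_co

/-- the 10-vertex graph has no 3-page book embedding in which the vertex 3 is first -/
theorem no_book (g : ℕ → ℕ) (q : ℕ → ℕ → ℕ) : ¬ Book 3 g q := by
  intro hB
  have h48 : Ref 3 g stk48 := by
    intro L hL
    simp [stk48] at hL
  have h47 : Ref 3 g stk47 := check_sound hB _ h48 _ _ run47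
  have h46 : Ref 3 g stk46 := check_sound hB _ h47 _ _ run46
  have h45 : Ref 3 g stk45 := check_sound hB _ h46 _ _ run45
  have h44 : Ref 3 g stk44 := check_sound hB _ h45 _ _ run44
  have h43 : Ref 3 g stk43 := check_sound hB _ h44 _ _ run43
  have h42 : Ref 3 g stk42 := check_sound hB _ h43 _ _ run42
  have h41 : Ref 3 g stk41 := check_sound hB _ h42 _ _ run41
  have h40 : Ref 3 g stk40 := check_sound hB _ h41 _ _ run40
  have h39 : Ref 3 g stk39 := check_sound hB _ h40 _ _ run39
  have h38 : Ref 3 g stk38 := check_sound hB _ h39 _ _ run38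
  have h37 : Ref 3 g stk37 := check_sound hB _ h38 _ _ run37
  have h36 : Ref 3 g stk36 := check_sound hB _ h37 _ _ run36
  have h35 : Ref 3 g stk35 := check_sound hB _ h36 _ _ run35
  have h34 : Ref 3 g stk34 := check_sound hB _ h35 _ _ run34
  have h33 : Ref 3 g stk33 := check_sound hB _ h34 _ _ run33
  have h32 : Ref 3 g stk32 := check_sound hB _ h33 _ _ run32
  have h31 : Ref 3 g stk31 := check_sound hB _ h32 _ _ run31
  have h30 : Ref 3 g stk30 := check_sound hB _ h31 _ _ run30
  have h29 : Ref 3 g stk29 := check_sound hB _ h30 _ _ run29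
  have h28 : Ref 3 g stk28 := check_sound hB _ h29 _ _ run28
  have h27 : Ref 3 g stk27 := check_sound hB _ h28 _ _ run27
  have h26 : Ref 3 g stk26 := check_sound hB _ h27 _ _ run26
  have h25 : Ref 3 g stk25 := check_sound hB _ h26 _ _ run25
  have h24 : Ref 3 g stk24 := check_sound hB _ h25 _ _ run24
  have h23 : Ref 3 g stk23 := check_sound hB _ h24 _ _ run23
  have h22 : Ref 3 g stk22 := check_sound hB _ h23 _ _ run22
  have h21 : Ref 3 g stk21 := check_sound hB _ h22 _ _ run21
  have h20 : Ref 3 g stk20 := check_sound hB _ h21 _ _ run20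
  have h19 : Ref 3 g stk19 := check_sound hB _ h20 _ _ run19
  have h18 : Ref 3 g stk18 := check_sound hB _ h19 _ _ run18
  have h17 : Ref 3 g stk17 := check_sound hB _ h18 _ _ run17
  have h16 : Ref 3 g stk16 := check_sound hB _ h17 _ _ run16
  have h15 : Ref 3 g stk15 := check_sound hB _ h16 _ _ run15
  have h14 : Ref 3 g stk14 := check_sound hB _ h15 _ _ run14
  have h13 : Ref 3 g stk13 := check_sound hB _ h14 _ _ run13
  have h12 : Ref 3 g stk12 := check_sound hB _ h13 _ _ run12
  have h11 : Ref 3 g stk11 := check_sound hB _ h12 _ _ run11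
  have h10 : Ref 3 g stk10 := check_sound hB _ h11 _ _ run10
  have h9 : Ref 3 g stk9 := check_sound hB _ h10 _ _ run9
  have h8 : Ref 3 g stk8 := check_sound hB _ h9 _ _ run8
  have h7 : Ref 3 g stk7 := check_sound hB _ h8 _ _ run7
  have h6 : Ref 3 g stk6 := check_sound hB _ h7 _ _ run6
  have h5 : Ref 3 g stk5 := check_sound hB _ h6 _ _ run5
  have h4 : Ref 3 g stk4 := check_sound hB _ h5 _ _ run4
  have h3 : Ref 3 g stk3 := check_sound hB _ h4 _ _ run3
  have h2 : Ref 3 g stk2 := check_sound hB _ h3 _ _ run2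
  have h1 : Ref 3 g stk1 := check_sound hB _ h2 _ _ run1
  have h0 : Ref 3 g stk0 := check_sound hB _ h1 _ _ run0
  exact h0 [] (by simp [stk0]) (by simp) (by simp)

end Pool.Agent.Lib.MP_cd28a7_co
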