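import Pool.Agent.Lib.MP_cd28a7_co.Stacks

set_option autoImplicit false

namespace Pool.Agent.Lib.MP_cd28a7_co

theorem run0 : check 3 stk1 tok0 stk0 = true := by decide +kernel

theorem run1 : check 3 stk2 tok1 stk1 = true := by decide +kernel

theorem run2 : check 3 stk3 tok2 stk2 = true := by decide +kernel

theorem run3 : check 3 stk4 tok3 stk3 = true := by decide +kernel

theorem run4 : check 3 stk5 tok4 stk4 = true := by decide +kernel

theorem run5 : check 3 stk6 tok5 stk5 = true := by decide +kernel

theorem run6 : check 3 stk7 tok6 stk6 = true := by decide +kernel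

theorem run7 : check 3 stk8 tok7 stk7 = true := by decide +kernel

theorem run8 : check 3 stk9 tok8 stk8 = true := by decide +kernel

theorem run9 : check 3 stk10 tok9 stk9 = true := by decide +kernel

theorem run10 : check 3 stk11 tok10 stk10 = true := by decide +kernel

theorem run11 : check 3 stk12 tok11 stk11 = true := by decide +kernel

end Pool.Agent.Lib.MP_cd28a7_co
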