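import Pool.Agent.Lib.MP_cd28a7_co.Nine

set_option autoImplicit false

/-! Outer quasi-planar graphs with at most nine vertices have 3-page book embeddings. -/

namespace Pool.Agent.Lib.MP_cd28a7_co

/-- the rank of a vertex in the layout -/
noncomputable def rnk {n : ℕ} (f : Fin n → ℕ) (v : Fin n) : ℕ :=
  (Finset.univ.filter (fun u => f u < f v)).card

theorem rnk_lt {n : ℕ} (f : Fin n → ℕ) (v : Fin n) : rnk f v < n := by
  have h : (Finset.univ.filter (fun u => f u < f v)).card < Fintype.card (Fin n) := by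
    apply Finset.card_lt_univ_of_notMem (x := v)
    simp
  rw [Fintype.card_fin] at h
  exact h

theorem rnk_mono {n : ℕ} (f : Fin n → ℕ) (u v : Fin n) (h : f u < f v) : rnk f u < rnk f v := by
  apply Finset.card_lt_card
  rw [Finset.ssubset_iff_of_subset]
  · refine ⟨u, ?_, ?_⟩
    · simp [h]
    · simp
  · intro w hw
    simp only [Finset.mem_filter, Finset.mem_univ, true_and] at hw ⊢
    exact lt_trans hw h

theorem rnk_iff {n : ℕ} (f : Fin n → ℕ) (hf : Function.Injective f) (u v : Fin n) :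
    rnk f u < rnk f v ↔ f u < f v := by
  constructor
  · intro h
    rcases lt_trichotomy (f u) (f v) with h1 | h1 | h1
    · exact h1
    · rw [hf h1] at h
      exact absurd h (lt_irrefl _)
    · exact absurd (rnk_mono f v u h1) (by omega)
  · exact rnk_mono f u v

theorem rnk_inj {n : ℕ} (f : Fin n → ℕ) (hf : Function.Injective f) (u v : Fin n)
    (h : rnk f u = rnk f v) : u = v := by
  apply hf
  rcases lt_trichotomy (f u) (f v) with h1 | h1 | h1
  · exact absurd (rnk_mono f u v h1) (by omega)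
  · exact h1
  · exact absurd (rnk_mono f v u h1) (by omega)

theorem small_three (n : ℕ) (hn : n ≤ 9) (G : SimpleGraph (Fin n))
    (hG : ∃ f : Fin n → ℕ, Function.Injective f ∧
      ∀ a b c d e g : Fin n, G.Adj a b → G.Adj c d → G.Adj e g →
        f a < f b → f c < f d → f e < f g →
        ¬ (((f a < f c ∧ f c < f b ∧ f b < f d) ∨ (f c < f a ∧ f a < f d ∧ f d < f b)) ∧
           ((f a < f e ∧ f e < f b ∧ f b < f g) ∨ (f e < f a ∧ f a < f g ∧ f g < f b)) ∧
           ((f c < f e ∧ f e < f d ∧ f d < f g) ∨ (f e < f c ∧ f c < f g ∧ f g < f d)))) :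
    ∃ f : Fin n → ℕ, Function.Injective f ∧
      ∃ p : Fin n → Fin n → Fin 3, ∀ a b c d : Fin n, G.Adj a b → G.Adj c d →
        f a < f c → f c < f b → f b < f d → p a b ≠ p c d := by
  obtain ⟨f, hf, hno⟩ := hG
  let R : ℕ → ℕ → Prop := fun a b =>
    ∃ u v : Fin n, G.Adj u v ∧ f u < f v ∧ rnk f u = a ∧ rnk f v = b
  have hR : Rel9 R := by
    constructor
    · rintro a b ⟨u, v, _, h2, rfl, rfl⟩
      exact ⟨rnk_mono f u v h2, lt_of_lt_of_le (rnk_lt f v) hn⟩
    · rintro a b c d e g ⟨u, v, h1, h2, rfl, rfl⟩ ⟨w, z, h3, h4, rfl, rfl⟩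
        ⟨s, t, h5, h6, rfl, rfl⟩ ⟨k1, k2, k3⟩
      unfold CrP at k1 k2 k3
      simp only [rnk_iff f hf] at k1 k2 k3
      exact hno u v w z s t h1 h3 h5 h2 h4 h6 ⟨k1, k2, k3⟩
  obtain ⟨h, hinj, p, hp3, hp⟩ := nine R hR
  have hr9 : ∀ v : Fin n, rnk f v < 9 := fun v => lt_of_lt_of_le (rnk_lt f v) hn
  have hRG : ∀ a b : Fin n, G.Adj a b →
      (R (rnk f a) (rnk f b) ∨ R (rnk f b) (rnk f a)) := by
    intro a b hab
    rcases lt_trichotomy (f a) (f b) with h1 | h1 | h1
    · exact Or.inl ⟨a, b, hab, h1, rfl, rfl⟩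
    · exact absurd (hf h1) hab.ne
    · exact Or.inr ⟨b, a, hab.symm, h1, rfl, rfl⟩
  refine ⟨fun v => h (rnk f v), ?_, fun u v => ⟨p (rnk f u) (rnk f v), hp3 _ _⟩, ?_⟩
  · intro u v huv
    exact rnk_inj f hf u v (hinj _ _ (hr9 u) (hr9 v) huv)
  · intro a b c d hab hcd h1 h2 h3 heq
    exact hp _ _ _ _ (hRG a b hab) (hRG c d hcd) h1 h2 h3 (congrArg Fin.val heq)

end Pool.Agent.Lib.MP_cd28a7_co
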