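import Pool.Agent.Lib.MP_cd28a7_co.Check

set_option autoImplicit false

namespace Pool.Agent.Lib.MP_cd28a7_co

/-- stack before part 0 -/
def stk0 : List (List ℕ) := [
  []]

/-- stack before part 1 -/
def stk1 : List (List ℕ) := [
  [4, 8, 6, 9, 0, 7, 5],
  [4, 8, 6, 9, 7, 0, 5],
  [4, 8, 6, 9, 7, 5, 0],
  [4, 8, 6, 7, 9, 5],
  [4, 8, 6, 7, 5, 9],
  [4, 6, 8, 7, 5],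
  [4, 6, 7, 8, 5],
  [4, 6, 7, 5, 8],
  [6, 4, 7, 5],
  [6, 7, 4, 5],
  [6, 7, 5, 4],
  [7, 6, 5],
  [7, 5, 6],
  [5, 7]]

/-- stack before part 2 -/
def stk2 : List (List ℕ) := [
  [1, 4, 6, 7, 8, 9, 5, 2, 0],
  [1, 4, 6, 7, 8, 9, 5, 0, 2],
  [4, 1, 6, 7, 8, 9, 5, 0],
  [4, 6, 1, 7, 8, 9, 5, 0],
  [4, 6, 7, 1, 8, 9, 5, 0],
  [4, 6, 7, 8, 1, 9, 5, 0],
  [4, 6, 7, 8, 9, 1, 5, 0],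
  [4, 6, 7, 8, 9, 5, 1, 0],
  [4, 6, 7, 8, 9, 5, 0, 1],
  [4, 6, 7, 8, 5, 9],
  [4, 6, 7, 5, 8],
  [6, 4, 7, 5],
  [6, 7, 4, 5],
  [6, 7, 5, 4],
  [7, 6, 5],
  [7, 5, 6],
  [5, 7]]

/-- stack before part 3 -/
def stk3 : List (List ℕ) := [
  [6, 4, 7, 0, 8, 9, 5],
  [6, 4, 7, 8, 0, 9, 5],
  [6, 4, 7, 8, 9, 0, 5],
  [6, 4, 7, 8, 9, 5, 0],
  [6, 4, 7, 8, 5, 9],
  [6, 4, 7, 5, 8],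
  [6, 7, 4, 5],
  [6, 7, 5, 4],
  [7, 6, 5],
  [7, 5, 6],
  [5, 7]]

/-- stack before part 4 -/
def stk4 : List (List ℕ) := [
  [8, 6, 7, 4, 0, 9, 5],
  [8, 6, 7, 4, 9, 0, 5],
  [8, 6, 7, 4, 9, 5, 0],
  [8, 6, 7, 4, 5, 9],
  [6, 8, 7, 4, 5],
  [6, 7, 8, 4, 5],
  [6, 7, 4, 8, 5],
  [6, 7, 4, 5, 8],
  [6, 7, 5, 4],
  [7, 6, 5],
  [7, 5, 6],
  [5, 7]]

/-- stack before part 5 -/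
def stk5 : List (List ℕ) := [
  [9, 6, 7, 4, 5, 8, 0, 1, 2],
  [6, 9, 7, 4, 5, 8],
  [6, 7, 9, 4, 5, 8],
  [6, 7, 4, 9, 5, 8],
  [6, 7, 4, 5, 9, 8],
  [6, 7, 4, 5, 8, 9],
  [6, 7, 5, 4],
  [7, 6, 5],
  [7, 5, 6],
  [5, 7]]

/-- stack before part 6 -/
def stk6 : List (List ℕ) := [
  [6, 9, 8, 7, 0, 5, 4],
  [6, 9, 8, 7, 5, 0, 4],
  [6, 9, 8, 7, 5, 4, 0],
  [6, 8, 9, 7, 5, 4],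
  [6, 8, 7, 9, 5, 4],
  [6, 8, 7, 5, 9, 4],
  [6, 8, 7, 5, 4, 9],
  [6, 7, 8, 5, 4],
  [6, 7, 5, 8, 4],
  [6, 7, 5, 4, 8],
  [7, 6, 5],
  [7, 5, 6],
  [5, 7]]

/-- stack before part 7 -/
def stk7 : List (List ℕ) := [
  [1, 8, 4, 7, 6, 9, 5, 0],
  [8, 1, 4, 7, 6, 9, 5, 0],
  [8, 4, 1, 7, 6, 9, 5, 0],
  [8, 4, 7, 1, 6, 9, 5, 0],
  [8, 4, 7, 6, 1, 9, 5, 0],
  [8, 4, 7, 6, 9, 1, 5, 0],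
  [8, 4, 7, 6, 9, 5, 1, 0],
  [8, 4, 7, 6, 9, 5, 0, 1],
  [8, 4, 7, 6, 5, 9],
  [4, 8, 7, 6, 5],
  [4, 7, 8, 6, 5],
  [4, 7, 6, 8, 5],
  [4, 7, 6, 5, 8],
  [7, 4, 6, 5],
  [7, 6, 4, 5],
  [7, 6, 5, 4],
  [7, 5, 6],
  [5, 7]]

/-- stack before part 8 -/
def stk8 : List (List ℕ) := [
  [4, 9, 7, 8, 6, 5],
  [4, 7, 9, 8, 6, 5],
  [4, 7, 8, 9, 6, 5],
  [4, 7, 8, 6, 9, 5],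
  [4, 7, 8, 6, 5, 9],
  [4, 7, 6, 8, 5],
  [4, 7, 6, 5, 8],
  [7, 4, 6, 5],
  [7, 6, 4, 5],
  [7, 6, 5, 4],
  [7, 5, 6],
  [5, 7]]

/-- stack before part 9 -/
def stk9 : List (List ℕ) := [
  [4, 7, 6, 1, 5, 9, 8, 0],
  [4, 7, 6, 5, 1, 9, 8, 0],
  [4, 7, 6, 5, 9, 1, 8, 0],
  [4, 7, 6, 5, 9, 8, 1, 0],
  [4, 7, 6, 5, 9, 8, 0, 1],
  [4, 7, 6, 5, 8, 9],
  [7, 4, 6, 5],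
  [7, 6, 4, 5],
  [7, 6, 5, 4],
  [7, 5, 6],
  [5, 7]]

/-- stack before part 10 -/
def stk10 : List (List ℕ) := [
  [7, 4, 0, 8, 6, 9, 5],
  [7, 4, 8, 0, 6, 9, 5],
  [7, 4, 8, 6, 0, 9, 5],
  [7, 4, 8, 6, 9, 0, 5],
  [7, 4, 8, 6, 9, 5, 0],
  [7, 4, 8, 6, 5, 9],
  [7, 4, 6, 8, 5],
  [7, 4, 6, 5, 8],
  [7, 6, 4, 5],
  [7, 6, 5, 4],
  [7, 5, 6],
  [5, 7]]

/-- stack before part 11 -/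
def stk11 : List (List ℕ) := [
  [7, 4, 6, 5, 9, 8, 0],
  [7, 4, 6, 5, 8, 9],
  [7, 6, 4, 5],
  [7, 6, 5, 4],
  [7, 5, 6],
  [5, 7]]

/-- stack before part 12 -/
def stk12 : List (List ℕ) := [
  [9, 7, 8, 6, 4, 5, 0],
  [7, 9, 8, 6, 4, 5],
  [7, 8, 9, 6, 4, 5],
  [7, 8, 6, 9, 4, 5],
  [7, 8, 6, 4, 9, 5],
  [7, 8, 6, 4, 5, 9],
  [7, 6, 8, 4, 5],
  [7, 6, 4, 8, 5],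
  [7, 6, 4, 5, 8],
  [7, 6, 5, 4],
  [7, 5, 6],
  [5, 7]]

/-- stack before part 13 -/
def stk13 : List (List ℕ) := [
  [7, 6, 8, 9, 0, 1, 4, 5],
  [7, 6, 8, 9, 0, 4, 1, 5],
  [7, 6, 8, 9, 0, 4, 5, 1],
  [7, 6, 8, 9, 4, 0, 5],
  [7, 6, 8, 9, 4, 5, 0],
  [7, 6, 8, 4, 9, 5],
  [7, 6, 8, 4, 5, 9],
  [7, 6, 4, 8, 5],
  [7, 6, 4, 5, 8],
  [7, 6, 5, 4],
  [7, 5, 6],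
  [5, 7]]

/-- stack before part 14 -/
def stk14 : List (List ℕ) := [
  [0, 9, 8, 7, 6, 2, 5, 4, 1],
  [0, 9, 8, 7, 6, 5, 2, 4, 1],
  [0, 9, 8, 7, 6, 5, 4, 2, 1],
  [0, 9, 8, 7, 6, 5, 4, 1, 2],
  [9, 0, 8, 7, 6, 5, 4],
  [9, 8, 0, 7, 6, 5, 4],
  [9, 8, 7, 0, 6, 5, 4],
  [9, 8, 7, 6, 0, 5, 4],
  [9, 8, 7, 6, 5, 0, 4],
  [9, 8, 7, 6, 5, 4, 0],
  [8, 9, 7, 6, 5, 4],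
  [8, 7, 9, 6, 5, 4],
  [8, 7, 6, 9, 5, 4],
  [8, 7, 6, 5, 9, 4],
  [8, 7, 6, 5, 4, 9],
  [7, 8, 6, 5, 4],
  [7, 6, 8, 5, 4],
  [7, 6, 5, 8, 4],
  [7, 6, 5, 4, 8],
  [7, 5, 6],
  [5, 7]]

/-- stack before part 15 -/
def stk15 : List (List ℕ) := [
  [7, 0, 9, 8, 6, 1, 5, 4],
  [7, 0, 9, 8, 6, 5, 1, 4],
  [7, 0, 9, 8, 6, 5, 4, 1],
  [7, 9, 0, 8, 6, 5, 4],
  [7, 9, 8, 0, 6, 5, 4],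
  [7, 9, 8, 6, 0, 5, 4],
  [7, 9, 8, 6, 5, 0, 4],
  [7, 9, 8, 6, 5, 4, 0],
  [7, 8, 9, 6, 5, 4],
  [7, 8, 6, 9, 5, 4],
  [7, 8, 6, 5, 9, 4],
  [7, 8, 6, 5, 4, 9],
  [7, 6, 8, 5, 4],
  [7, 6, 5, 8, 4],
  [7, 6, 5, 4, 8],
  [7, 5, 6],
  [5, 7]]

/-- stack before part 16 -/
def stk16 : List (List ℕ) := [
  [7, 6, 9, 8, 1, 0, 5, 4],
  [7, 6, 9, 8, 0, 1, 5, 4],
  [7, 6, 9, 8, 0, 5, 1, 4],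
  [7, 6, 9, 8, 0, 5, 4, 1],
  [7, 6, 9, 8, 5, 0, 4],
  [7, 6, 9, 8, 5, 4, 0],
  [7, 6, 8, 9, 5, 4],
  [7, 6, 8, 5, 9, 4],
  [7, 6, 8, 5, 4, 9],
  [7, 6, 5, 8, 4],
  [7, 6, 5, 4, 8],
  [7, 5, 6],
  [5, 7]]

/-- stack before part 17 -/
def stk17 : List (List ℕ) := [
  [1, 7, 6, 5, 4, 0, 9, 8],
  [7, 1, 6, 5, 4, 0, 9, 8],
  [7, 6, 1, 5, 4, 0, 9, 8],
  [7, 6, 5, 1, 4, 0, 9, 8],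
  [7, 6, 5, 4, 1, 0, 9, 8],
  [7, 6, 5, 4, 0, 1, 9, 8],
  [7, 6, 5, 4, 0, 9, 1, 8],
  [7, 6, 5, 4, 0, 9, 8, 1],
  [7, 6, 5, 4, 9, 0, 8],
  [7, 6, 5, 4, 9, 8, 0],
  [7, 6, 5, 4, 8, 9],
  [7, 5, 6],
  [5, 7]]

/-- stack before part 18 -/
def stk18 : List (List ℕ) := [
  [0, 9, 4, 7, 5, 6, 8],
  [9, 0, 4, 7, 5, 6, 8],
  [9, 4, 0, 7, 5, 6, 8],
  [9, 4, 7, 0, 5, 6, 8],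
  [9, 4, 7, 5, 0, 6, 8],
  [9, 4, 7, 5, 6, 0, 8],
  [9, 4, 7, 5, 6, 8, 0],
  [4, 9, 7, 5, 6, 8],
  [4, 7, 9, 5, 6, 8],
  [4, 7, 5, 9, 6, 8],
  [4, 7, 5, 6, 9, 8],
  [4, 7, 5, 6, 8, 9],
  [7, 4, 5, 6],
  [7, 5, 4, 6],
  [7, 5, 6, 4],
  [5, 7]]

/-- stack before part 19 -/
def stk19 : List (List ℕ) := [
  [7, 4, 5, 8, 9, 6, 0],
  [7, 4, 5, 8, 6, 9],
  [7, 4, 5, 6, 8],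
  [7, 5, 4, 6],
  [7, 5, 6, 4],
  [5, 7]]

/-- stack before part 20 -/
def stk20 : List (List ℕ) := [
  [7, 4, 2, 5, 6, 8, 9, 0, 1],
  [7, 4, 5, 2, 6, 8, 9, 0, 1],
  [7, 4, 5, 6, 2, 8, 9, 0, 1],
  [7, 4, 5, 6, 8, 2, 9, 0, 1],
  [7, 4, 5, 6, 8, 9, 2, 0, 1],
  [7, 4, 5, 6, 8, 9, 0, 2, 1],
  [7, 4, 5, 6, 8, 9, 0, 1, 2],
  [7, 5, 4, 6],
  [7, 5, 6, 4],
  [5, 7]]

/-- stack before part 21 -/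
def stk21 : List (List ℕ) := [
  [7, 5, 4, 9, 8, 6, 0],
  [7, 5, 4, 8, 9, 6],
  [7, 5, 4, 8, 6, 9],
  [7, 5, 4, 6, 8],
  [7, 5, 6, 4],
  [5, 7]]

/-- stack before part 22 -/
def stk22 : List (List ℕ) := [
  [8, 7, 5, 6, 9, 0, 4],
  [8, 7, 5, 6, 9, 4, 0],
  [8, 7, 5, 6, 4, 9],
  [7, 8, 5, 6, 4],
  [7, 5, 8, 6, 4],
  [7, 5, 6, 8, 4],
  [7, 5, 6, 4, 8],
  [5, 7]]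

/-- stack before part 23 -/
def stk23 : List (List ℕ) := [
  [7, 5, 9, 1, 0, 6, 8, 4],
  [7, 5, 9, 0, 1, 6, 8, 4],
  [7, 5, 9, 0, 6, 1, 8, 4],
  [7, 5, 9, 0, 6, 8, 1, 4],
  [7, 5, 9, 0, 6, 8, 4, 1],
  [7, 5, 9, 6, 0, 8, 4],
  [7, 5, 9, 6, 8, 0, 4],
  [7, 5, 9, 6, 8, 4, 0],
  [7, 5, 6, 9, 8, 4],
  [7, 5, 6, 8, 9, 4],
  [7, 5, 6, 8, 4, 9],
  [7, 5, 6, 4, 8],
  [5, 7]]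

/-- stack before part 24 -/
def stk24 : List (List ℕ) := [
  [0, 8, 4, 6, 9, 5, 7],
  [8, 0, 4, 6, 9, 5, 7],
  [8, 4, 0, 6, 9, 5, 7],
  [8, 4, 6, 0, 9, 5, 7],
  [8, 4, 6, 9, 0, 5, 7],
  [8, 4, 6, 9, 5, 0, 7],
  [8, 4, 6, 9, 5, 7, 0],
  [8, 4, 6, 5, 9, 7],
  [8, 4, 6, 5, 7, 9],
  [4, 8, 6, 5, 7],
  [4, 6, 8, 5, 7],
  [4, 6, 5, 8, 7],
  [4, 6, 5, 7, 8],
  [6, 4, 5, 7],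
  [6, 5, 4, 7],
  [6, 5, 7, 4],
  [5, 6, 7],
  [5, 7, 6]]

/-- stack before part 25 -/
def stk25 : List (List ℕ) := [
  [9, 4, 6, 8, 5, 7, 0],
  [4, 9, 6, 8, 5, 7],
  [4, 6, 9, 8, 5, 7],
  [4, 6, 8, 9, 5, 7],
  [4, 6, 8, 5, 9, 7],
  [4, 6, 8, 5, 7, 9],
  [4, 6, 5, 8, 7],
  [4, 6, 5, 7, 8],
  [6, 4, 5, 7],
  [6, 5, 4, 7],
  [6, 5, 7, 4],
  [5, 6, 7],
  [5, 7, 6]]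

/-- stack before part 26 -/
def stk26 : List (List ℕ) := [
  [9, 8, 6, 0, 2, 1, 4, 5, 7],
  [9, 8, 6, 0, 1, 2, 4, 5, 7],
  [9, 8, 6, 0, 1, 4, 2, 5, 7],
  [9, 8, 6, 0, 1, 4, 5, 2, 7],
  [9, 8, 6, 0, 1, 4, 5, 7, 2],
  [9, 8, 6, 0, 4, 1, 5, 7],
  [9, 8, 6, 0, 4, 5, 1, 7],
  [9, 8, 6, 0, 4, 5, 7, 1],
  [9, 8, 6, 4, 0, 5, 7],
  [9, 8, 6, 4, 5, 0, 7],
  [9, 8, 6, 4, 5, 7, 0],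
  [8, 9, 6, 4, 5, 7],
  [8, 6, 9, 4, 5, 7],
  [8, 6, 4, 9, 5, 7],
  [8, 6, 4, 5, 9, 7],
  [8, 6, 4, 5, 7, 9],
  [6, 8, 4, 5, 7],
  [6, 4, 8, 5, 7],
  [6, 4, 5, 8, 7],
  [6, 4, 5, 7, 8],
  [6, 5, 4, 7],
  [6, 5, 7, 4],
  [5, 6, 7],
  [5, 7, 6]]

/-- stack before part 27 -/
def stk27 : List (List ℕ) := [
  [9, 6, 0, 4, 5, 7, 8],
  [9, 6, 4, 0, 5, 7, 8],
  [9, 6, 4, 5, 0, 7, 8],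
  [9, 6, 4, 5, 7, 0, 8],
  [9, 6, 4, 5, 7, 8, 0],
  [6, 9, 4, 5, 7, 8],
  [6, 4, 9, 5, 7, 8],
  [6, 4, 5, 9, 7, 8],
  [6, 4, 5, 7, 9, 8],
  [6, 4, 5, 7, 8, 9],
  [6, 5, 4, 7],
  [6, 5, 7, 4],
  [5, 6, 7],
  [5, 7, 6]]

/-- stack before part 28 -/
def stk28 : List (List ℕ) := [
  [9, 8, 6, 5, 4, 1, 0, 7],
  [9, 8, 6, 5, 4, 0, 1, 7],
  [9, 8, 6, 5, 4, 0, 7, 1],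
  [9, 8, 6, 5, 4, 7, 0],
  [8, 9, 6, 5, 4, 7],
  [8, 6, 9, 5, 4, 7],
  [8, 6, 5, 9, 4, 7],
  [8, 6, 5, 4, 9, 7],
  [8, 6, 5, 4, 7, 9],
  [6, 8, 5, 4, 7],
  [6, 5, 8, 4, 7],
  [6, 5, 4, 8, 7],
  [6, 5, 4, 7, 8],
  [6, 5, 7, 4],
  [5, 6, 7],
  [5, 7, 6]]

/-- stack before part 29 -/
def stk29 : List (List ℕ) := [
  [6, 5, 4, 0, 8, 7, 9],
  [6, 5, 4, 8, 0, 7, 9],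
  [6, 5, 4, 8, 7, 0, 9],
  [6, 5, 4, 8, 7, 9, 0],
  [6, 5, 4, 7, 8],
  [6, 5, 7, 4],
  [5, 6, 7],
  [5, 7, 6]]

/-- stack before part 30 -/
def stk30 : List (List ℕ) := [
  [6, 0, 5, 9, 8, 7, 4],
  [6, 5, 0, 9, 8, 7, 4],
  [6, 5, 9, 0, 8, 7, 4],
  [6, 5, 9, 8, 0, 7, 4],
  [6, 5, 9, 8, 7, 0, 4],
  [6, 5, 9, 8, 7, 4, 0],
  [6, 5, 8, 9, 7, 4],
  [6, 5, 8, 7, 9, 4],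
  [6, 5, 8, 7, 4, 9],
  [6, 5, 7, 8, 4],
  [6, 5, 7, 4, 8],
  [5, 6, 7],
  [5, 7, 6]]

/-- stack before part 31 -/
def stk31 : List (List ℕ) := [
  [9, 4, 8, 5, 6, 7],
  [4, 9, 8, 5, 6, 7],
  [4, 8, 9, 5, 6, 7],
  [4, 8, 5, 9, 6, 7],
  [4, 8, 5, 6, 9, 7],
  [4, 8, 5, 6, 7, 9],
  [4, 5, 8, 6, 7],
  [4, 5, 6, 8, 7],
  [4, 5, 6, 7, 8],
  [5, 4, 6, 7],
  [5, 6, 4, 7],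
  [5, 6, 7, 4],
  [5, 7, 6]]

/-- stack before part 32 -/
def stk32 : List (List ℕ) := [
  [4, 9, 5, 0, 6, 8, 7],
  [4, 9, 5, 6, 0, 8, 7],
  [4, 9, 5, 6, 8, 0, 7],
  [4, 9, 5, 6, 8, 7, 0],
  [4, 5, 9, 6, 8, 7],
  [4, 5, 6, 9, 8, 7],
  [4, 5, 6, 8, 9, 7],
  [4, 5, 6, 8, 7, 9],
  [4, 5, 6, 7, 8],
  [5, 4, 6, 7],
  [5, 6, 4, 7],
  [5, 6, 7, 4],
  [5, 7, 6]]

/-- stack before part 33 -/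
def stk33 : List (List ℕ) := [
  [4, 5, 9, 6, 7, 0, 8],
  [4, 5, 9, 6, 7, 8, 0],
  [4, 5, 6, 9, 7, 8],
  [4, 5, 6, 7, 9, 8],
  [4, 5, 6, 7, 8, 9],
  [5, 4, 6, 7],
  [5, 6, 4, 7],
  [5, 6, 7, 4],
  [5, 7, 6]]

/-- stack before part 34 -/
def stk34 : List (List ℕ) := [
  [8, 9, 5, 4, 6, 0, 7],
  [8, 9, 5, 4, 6, 7, 0],
  [8, 5, 9, 4, 6, 7],
  [8, 5, 4, 9, 6, 7],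
  [8, 5, 4, 6, 9, 7],
  [8, 5, 4, 6, 7, 9],
  [5, 8, 4, 6, 7],
  [5, 4, 8, 6, 7],
  [5, 4, 6, 8, 7],
  [5, 4, 6, 7, 8],
  [5, 6, 4, 7],
  [5, 6, 7, 4],
  [5, 7, 6]]

/-- stack before part 35 -/
def stk35 : List (List ℕ) := [
  [9, 5, 4, 0, 6, 8, 1, 7],
  [9, 5, 4, 0, 6, 8, 7, 1],
  [9, 5, 4, 6, 0, 8, 7],
  [9, 5, 4, 6, 8, 0, 7],
  [9, 5, 4, 6, 8, 7, 0],
  [5, 9, 4, 6, 8, 7],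
  [5, 4, 9, 6, 8, 7],
  [5, 4, 6, 9, 8, 7],
  [5, 4, 6, 8, 9, 7],
  [5, 4, 6, 8, 7, 9],
  [5, 4, 6, 7, 8],
  [5, 6, 4, 7],
  [5, 6, 7, 4],
  [5, 7, 6]]

/-- stack before part 36 -/
def stk36 : List (List ℕ) := [
  [5, 4, 6, 9, 7, 8, 0],
  [5, 4, 6, 7, 9, 8],
  [5, 4, 6, 7, 8, 9],
  [5, 6, 4, 7],
  [5, 6, 7, 4],
  [5, 7, 6]]

/-- stack before part 37 -/
def stk37 : List (List ℕ) := [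
  [5, 9, 1, 8, 0, 6, 4, 7],
  [5, 9, 8, 1, 0, 6, 4, 7],
  [5, 9, 8, 0, 1, 6, 4, 7],
  [5, 9, 8, 0, 6, 1, 4, 7],
  [5, 9, 8, 0, 6, 4, 1, 7],
  [5, 9, 8, 0, 6, 4, 7, 1],
  [5, 9, 8, 6, 0, 4, 7],
  [5, 9, 8, 6, 4, 0, 7],
  [5, 9, 8, 6, 4, 7, 0],
  [5, 8, 9, 6, 4, 7],
  [5, 8, 6, 9, 4, 7],
  [5, 8, 6, 4, 9, 7],
  [5, 8, 6, 4, 7, 9],
  [5, 6, 8, 4, 7],
  [5, 6, 4, 8, 7],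
  [5, 6, 4, 7, 8],
  [5, 6, 7, 4],
  [5, 7, 6]]

/-- stack before part 38 -/
def stk38 : List (List ℕ) := [
  [5, 9, 1, 6, 4, 8, 0, 7],
  [5, 9, 6, 1, 4, 8, 0, 7],
  [5, 9, 6, 4, 1, 8, 0, 7],
  [5, 9, 6, 4, 8, 1, 0, 7],
  [5, 9, 6, 4, 8, 0, 1, 7],
  [5, 9, 6, 4, 8, 0, 7, 1],
  [5, 9, 6, 4, 8, 7, 0],
  [5, 6, 9, 4, 8, 7],
  [5, 6, 4, 9, 8, 7],
  [5, 6, 4, 8, 9, 7],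
  [5, 6, 4, 8, 7, 9],
  [5, 6, 4, 7, 8],
  [5, 6, 7, 4],
  [5, 7, 6]]

/-- stack before part 39 -/
def stk39 : List (List ℕ) := [
  [8, 5, 0, 6, 7, 9, 4],
  [8, 5, 6, 0, 7, 9, 4],
  [8, 5, 6, 7, 0, 9, 4],
  [8, 5, 6, 7, 9, 0, 4],
  [8, 5, 6, 7, 9, 4, 0],
  [8, 5, 6, 7, 4, 9],
  [5, 8, 6, 7, 4],
  [5, 6, 8, 7, 4],
  [5, 6, 7, 8, 4],
  [5, 6, 7, 4, 8],
  [5, 7, 6]]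

/-- stack before part 40 -/
def stk40 : List (List ℕ) := [
  [5, 9, 6, 0, 7, 8, 4],
  [5, 9, 6, 7, 0, 8, 4],
  [5, 9, 6, 7, 8, 0, 4],
  [5, 9, 6, 7, 8, 4, 0],
  [5, 6, 9, 7, 8, 4],
  [5, 6, 7, 9, 8, 4],
  [5, 6, 7, 8, 9, 4],
  [5, 6, 7, 8, 4, 9],
  [5, 6, 7, 4, 8],
  [5, 7, 6]]

/-- stack before part 41 -/
def stk41 : List (List ℕ) := [
  [8, 4, 5, 7, 9, 6, 0],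
  [8, 4, 5, 7, 6, 9],
  [4, 8, 5, 7, 6],
  [4, 5, 8, 7, 6],
  [4, 5, 7, 8, 6],
  [4, 5, 7, 6, 8],
  [5, 4, 7, 6],
  [5, 7, 4, 6],
  [5, 7, 6, 4]]

/-- stack before part 42 -/
def stk42 : List (List ℕ) := [
  [1, 0, 4, 5, 7, 6, 9, 8],
  [0, 1, 4, 5, 7, 6, 9, 8],
  [0, 4, 1, 5, 7, 6, 9, 8],
  [0, 4, 5, 1, 7, 6, 9, 8],
  [0, 4, 5, 7, 1, 6, 9, 8],
  [0, 4, 5, 7, 6, 1, 9, 8],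
  [0, 4, 5, 7, 6, 9, 1, 8],
  [0, 4, 5, 7, 6, 9, 8, 1],
  [4, 0, 5, 7, 6, 9, 8],
  [4, 5, 0, 7, 6, 9, 8],
  [4, 5, 7, 0, 6, 9, 8],
  [4, 5, 7, 6, 0, 9, 8],
  [4, 5, 7, 6, 9, 0, 8],
  [4, 5, 7, 6, 9, 8, 0],
  [4, 5, 7, 6, 8, 9],
  [5, 4, 7, 6],
  [5, 7, 4, 6],
  [5, 7, 6, 4]]

/-- stack before part 43 -/
def stk43 : List (List ℕ) := [
  [5, 4, 8, 7, 9, 0, 6],
  [5, 4, 8, 7, 9, 6, 0],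
  [5, 4, 8, 7, 6, 9],
  [5, 4, 7, 8, 6],
  [5, 4, 7, 6, 8],
  [5, 7, 4, 6],
  [5, 7, 6, 4]]

/-- stack before part 44 -/
def stk44 : List (List ℕ) := [
  [5, 4, 7, 6, 1, 0, 9, 8],
  [5, 4, 7, 6, 0, 1, 9, 8],
  [5, 4, 7, 6, 0, 9, 1, 8],
  [5, 4, 7, 6, 0, 9, 8, 1],
  [5, 4, 7, 6, 9, 0, 8],
  [5, 4, 7, 6, 9, 8, 0],
  [5, 4, 7, 6, 8, 9],
  [5, 7, 4, 6],
  [5, 7, 6, 4]]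

/-- stack before part 45 -/
def stk45 : List (List ℕ) := [
  [0, 5, 7, 4, 8, 9, 6],
  [5, 0, 7, 4, 8, 9, 6],
  [5, 7, 0, 4, 8, 9, 6],
  [5, 7, 4, 0, 8, 9, 6],
  [5, 7, 4, 8, 0, 9, 6],
  [5, 7, 4, 8, 9, 0, 6],
  [5, 7, 4, 8, 9, 6, 0],
  [5, 7, 4, 8, 6, 9],
  [5, 7, 4, 6, 8],
  [5, 7, 6, 4]]

/-- stack before part 46 -/
def stk46 : List (List ℕ) := [
  [5, 9, 7, 8, 6, 0, 4],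
  [5, 9, 7, 8, 6, 4, 0],
  [5, 7, 9, 8, 6, 4],
  [5, 7, 8, 9, 6, 4],
  [5, 7, 8, 6, 9, 4],
  [5, 7, 8, 6, 4, 9],
  [5, 7, 6, 8, 4],
  [5, 7, 6, 4, 8]]

/-- stack before part 47 -/
def stk47 : List (List ℕ) := [
  [0, 9, 5, 7, 6, 1, 4, 8],
  [0, 9, 5, 7, 6, 4, 1, 8],
  [0, 9, 5, 7, 6, 4, 8, 1],
  [9, 0, 5, 7, 6, 4, 8],
  [9, 5, 0, 7, 6, 4, 8],
  [9, 5, 7, 0, 6, 4, 8],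
  [9, 5, 7, 6, 0, 4, 8],
  [9, 5, 7, 6, 4, 0, 8],
  [9, 5, 7, 6, 4, 8, 0],
  [5, 9, 7, 6, 4, 8],
  [5, 7, 9, 6, 4, 8],
  [5, 7, 6, 9, 4, 8],
  [5, 7, 6, 4, 9, 8],
  [5, 7, 6, 4, 8, 9]]

/-- stack before part 48 -/
def stk48 : List (List ℕ) := []

end Pool.Agent.Lib.MP_cd28a7_co
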