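import Pool.Agent.Lib.MP_cd28a7_co.Run

set_option autoImplicit false

/-! The 10-vertex graph: outer quasi-planar, four pages suffice, three do not. -/

namespace Pool.Agent.Lib.MP_cd28a7_co

/-- the 30 edges -/
def El : List (ℕ × ℕ) :=
  [(0, 1), (0, 2), (0, 4), (0, 5), (0, 8), (0, 9), (1, 2), (1, 3), (1, 4), (1, 9), (2, 3), (2, 4),
    (2, 9), (3, 4), (3, 5), (3, 7), (3, 8), (3, 9), (4, 5), (4, 6), (4, 7), (5, 6), (5, 7), (5, 9),
    (6, 7), (6, 8), (6, 9), (7, 8), (7, 9), (8, 9)]

theorem El_aux : ((List.range 10).all fun a => (List.range 10).all fun b =>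
    !(tadj a b && Nat.blt a b) || El.contains (a, b)) = true := by decide +kernel

theorem El_mem {a b : ℕ} (h : tadj a b = true) (hab : a < b) : (a, b) ∈ El := by
  have h1 := List.all_eq_true.1 El_aux a (List.mem_range.2 (tadj_lt h).1)
  have h2 := List.all_eq_true.1 h1 b (List.mem_range.2 (tadj_lt h).2)
  have h3 : Nat.blt a b = true := by simpa using hab
  rw [h, h3] at h2
  simpa using h2

theorem tadj_irrefl_aux : ∀ a < 10, tadj a a = false := by decide +kernel

/-- the 10-vertex graph with isolated vertices added -/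
def T (n : ℕ) : SimpleGraph (Fin n) where
  Adj a b := tadj a.val b.val = true
  symm := ⟨fun _ _ h => tadj_symm h⟩
  loopless := ⟨fun a h => by
    rw [tadj_irrefl_aux a.val (tadj_lt h).1] at h
    exact absurd h (by decide)⟩

/-- crossing of pairs of vertices in the natural order -/
def crN (x y : ℕ × ℕ) : Bool :=
  (Nat.blt x.1 y.1 && (Nat.blt y.1 x.2 && Nat.blt x.2 y.2)) ||
    (Nat.blt y.1 x.1 && (Nat.blt x.1 y.2 && Nat.blt y.2 x.2))

theorem crN_iff (e f : ℕ × ℕ) : crN e f = true ↔
    (e.1 < f.1 ∧ f.1 < e.2 ∧ e.2 < f.2) ∨ (f.1 < e.1 ∧ e.1 < f.2 ∧ f.2 < e.2) := by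
  unfold crN
  simp [Bool.or_eq_true, Bool.and_eq_true]

theorem no_triple : (El.all fun x => El.all fun y => El.all fun z =>
    !(crN x y && (crN x z && crN y z))) = true := by decide +kernel

/-- colour table of a 4-page embedding -/
def ctab : ℕ := 730751864013900330458593001491207140915244171296

/-- the colour of an edge -/
def colr (a b : ℕ) : ℕ := (ctab / 4 ^ (10 * a + b)) % 4

theorem four_ok : (El.all fun x => El.all fun y =>
    !(crN x y && Nat.beq (colr x.1 x.2) (colr y.1 y.2))) = true := by decide +kernel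

theorem T_oqp (n : ℕ) : ∃ f : Fin n → ℕ, Function.Injective f ∧
    ∀ a b c d e g : Fin n, (T n).Adj a b → (T n).Adj c d → (T n).Adj e g →
      f a < f b → f c < f d → f e < f g →
      ¬ (((f a < f c ∧ f c < f b ∧ f b < f d) ∨ (f c < f a ∧ f a < f d ∧ f d < f b)) ∧
         ((f a < f e ∧ f e < f b ∧ f b < f g) ∨ (f e < f a ∧ f a < f g ∧ f g < f b)) ∧
         ((f c < f e ∧ f e < f d ∧ f d < f g) ∨ (f e < f c ∧ f c < f g ∧ f g < f d))) := by
  refine ⟨fun v => v.val, Fin.val_injective, ?_⟩
  intro a b c d e g hab hcd heg h1 h2 h3 h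
  have k1 := El_mem hab h1
  have k2 := El_mem hcd h2
  have k3 := El_mem heg h3
  have h4 := (List.all_eq_true.1 no_triple) _ k1
  have h5 := (List.all_eq_true.1 h4) _ k2
  have h6 := (List.all_eq_true.1 h5) _ k3
  rw [(crN_iff (a.val, b.val) (c.val, d.val)).2 h.1,
    (crN_iff (a.val, b.val) (e.val, g.val)).2 h.2.1,
    (crN_iff (c.val, d.val) (e.val, g.val)).2 h.2.2] at h6
  exact absurd h6 (by decide)

theorem T_four (n : ℕ) : ∃ f : Fin n → ℕ, Function.Injective f ∧
    ∃ p : Fin n → Fin n → Fin 4, ∀ a b c d : Fin n, (T n).Adj a b → (T n).Adj c d →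
      f a < f c → f c < f b → f b < f d → p a b ≠ p c d := by
  refine ⟨fun v => v.val, Fin.val_injective,
    fun a b => ⟨colr a.val b.val, Nat.mod_lt _ (by norm_num)⟩, ?_⟩
  intro a b c d hab hcd h1 h2 h3 heq
  have k1 := El_mem hab (lt_trans h1 h2)
  have k2 := El_mem hcd (lt_trans h2 h3)
  have h4 := (List.all_eq_true.1 four_ok) _ k1
  have h5 := (List.all_eq_true.1 h4) _ k2
  have h6 : colr a.val b.val = colr c.val d.val := by
    have := congrArg Fin.val heq
    exact this
  rw [(crN_iff (a.val, b.val) (c.val, d.val)).2 (Or.inl ⟨h1, h2, h3⟩)] at h5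
  simp only at h5
  rw [h6] at h5
  rw [show Nat.beq (colr c.val d.val) (colr c.val d.val) = true from Nat.beq_refl _] at h5
  exact absurd h5 (by decide)

theorem rot_cases (A B C D V M : ℕ) (_ : A < M) (_ : B < M) (_ : C < M) (_ : D < M)
    (h1 : (if V ≤ A then A - V else A + M - V) < (if V ≤ C then C - V else C + M - V))
    (h2 : (if V ≤ C then C - V else C + M - V) < (if V ≤ B then B - V else B + M - V))
    (h3 : (if V ≤ B then B - V else B + M - V) < (if V ≤ D then D - V else D + M - V)) :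
    (A < C ∧ C < B ∧ B < D) ∨ (C < B ∧ B < D ∧ D < A) ∨ (B < D ∧ D < A ∧ A < C) ∨
      (D < A ∧ A < C ∧ C < B) := by
  split_ifs at h1 h2 h3 <;> omega

theorem T_not_three (n : ℕ) (hn : 10 ≤ n) : ¬ ∃ f : Fin n → ℕ, Function.Injective f ∧
    ∃ p : Fin n → Fin n → Fin 3, ∀ a b c d : Fin n, (T n).Adj a b → (T n).Adj c d →
      f a < f c → f c < f b → f b < f d → p a b ≠ p c d := by
  rintro ⟨f, hf, p, hp⟩
  let e : ℕ → Fin n := fun x => if h : x < 10 then ⟨x, lt_of_lt_of_le h hn⟩ else ⟨0, by omega⟩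
  have he : ∀ x : ℕ, x < 10 → (e x).val = x := by
    intro x hx
    show (if h : x < 10 then (⟨x, lt_of_lt_of_le h hn⟩ : Fin n) else ⟨0, by omega⟩).val = x
    rw [dif_pos hx]
  let M : ℕ := 1 + Finset.univ.sup f
  have hM : ∀ v : Fin n, f v < M := by
    intro v
    have : f v ≤ Finset.univ.sup f := Finset.le_sup (Finset.mem_univ v)
    show f v < 1 + Finset.univ.sup f
    omega
  let V : ℕ := f (e 3)
  have hV : V < M := hM _
  let F : ℕ → ℕ := fun x => f (e x)
  let g : ℕ → ℕ := fun x => if V ≤ F x then F x - V else F x + M - V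
  let q : ℕ → ℕ → ℕ := fun x y =>
    if F x < F y then (p (e x) (e y)).val else (p (e y) (e x)).val
  have hFM : ∀ x : ℕ, F x < M := fun x => hM _
  have hFinj : ∀ a b : ℕ, a < 10 → b < 10 → F a = F b → a = b := by
    intro a b ha hb h
    have h1 : e a = e b := hf h
    rw [← he a ha, ← he b hb, h1]
  apply no_book g q
  refine ⟨?_, ?_, ?_, ?_, ?_⟩
  · intro a b ha hb h
    apply hFinj a b ha hb
    have h1 := hFM a
    have h2 := hFM b
    have h3 : (if V ≤ F a then F a - V else F a + M - V) =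
      (if V ≤ F b then F b - V else F b + M - V) := h
    split_ifs at h3 <;> omega
  · intro a ha ha3
    have h1 := hFM a
    have hne : F a ≠ V := fun h => ha3 (hFinj a 3 ha (by norm_num) h)
    show (if V ≤ F 3 then F 3 - V else F 3 + M - V) < (if V ≤ F a then F a - V else F a + M - V)
    have h3 : F 3 = V := rfl
    rw [h3]
    split_ifs <;> omega
  · intro a b
    show (if F a < F b then (p (e a) (e b)).val else (p (e b) (e a)).val) < 3
    split_ifs
    · exact (p (e a) (e b)).isLt
    · exact (p (e b) (e a)).isLt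
  · intro a b
    show (if F a < F b then (p (e a) (e b)).val else (p (e b) (e a)).val) =
      (if F b < F a then (p (e b) (e a)).val else (p (e a) (e b)).val)
    by_cases h1 : F a < F b
    · rw [if_pos h1, if_neg (by omega)]
    · by_cases h2 : F b < F a
      · rw [if_neg h1, if_pos h2]
      · rw [if_neg h1, if_neg h2]
        have h3 : F a = F b := by omega
        have h4 : e a = e b := hf h3
        rw [h4]
  · intro a b c d hab hcd h1 h2 h3
    have la := tadj_lt hab
    have lc := tadj_lt hcd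
    have hAB : (T n).Adj (e a) (e b) := by
      show tadj (e a).val (e b).val = true
      rw [he a la.1, he b la.2]
      exact hab
    have hCD : (T n).Adj (e c) (e d) := by
      show tadj (e c).val (e d).val = true
      rw [he c lc.1, he d lc.2]
      exact hcd
    have hcase := rot_cases (F a) (F b) (F c) (F d) V M (hFM a) (hFM b) (hFM c) (hFM d) h1 h2 h3
    show (if F a < F b then (p (e a) (e b)).val else (p (e b) (e a)).val) ≠
      (if F c < F d then (p (e c) (e d)).val else (p (e d) (e c)).val)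
    rcases hcase with ⟨k1, k2, k3⟩ | ⟨k1, k2, k3⟩ | ⟨k1, k2, k3⟩ | ⟨k1, k2, k3⟩
    · rw [if_pos (by omega), if_pos (by omega)]
      intro h
      exact hp _ _ _ _ hAB hCD k1 k2 k3 (Fin.ext h)
    · rw [if_neg (by omega), if_pos (by omega)]
      intro h
      exact hp _ _ _ _ hCD hAB.symm k1 k2 k3 (Fin.ext h.symm)
    · rw [if_neg (by omega), if_neg (by omega)]
      intro h
      exact hp _ _ _ _ hAB.symm hCD.symm k1 k2 k3 (Fin.ext h)
    · rw [if_pos (by omega), if_neg (by omega)]
      intro h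
      exact hp _ _ _ _ hCD.symm hAB k1 k2 k3 (Fin.ext h.symm)

end Pool.Agent.Lib.MP_cd28a7_co
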